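import Mathlib

/-!
# Theory L: lower bounds of the topological entropy by covering relations (helper50)

`X` metric, `f` continuous, `p : X → ℝ` continuous, finitely many compact sets `N v` with levels
`l v ≤ r v`. `v → w` (covering relation) if the image of every curve in `N v` from the level `l v` to the
level `r v` of `p` contains a curve in `N w` from the level `l w` to the level `r w`. A transition matrix
with growth rate `lam` gives `log lam ≤ h(f)` on the compact set of the points with all iterates in the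
union of the `N v`.
-/

set_option autoImplicit false

open Set Filter Topology

namespace Pool.Agent.Work.MP_99322d_an.L

variable {X : Type} [MetricSpace X]

/-- `γ` runs in `N` from one of the levels `l`, `r` of `p` to the other one, on `[a, b]`. -/
def Cross (p : X → ℝ) (N : Set X) (l r : ℝ) (γ : ℝ → X) (a b : ℝ) : Prop :=
  a ≤ b ∧ ContinuousOn γ (Icc a b) ∧ (∀ t ∈ Icc a b, γ t ∈ N) ∧
    ((p (γ a) = l ∧ p (γ b) = r) ∨ (p (γ a) = r ∧ p (γ b) = l))

/-- Covering relation. -/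
def Cov (f : X → X) (p : X → ℝ) (N : Set X) (l r : ℝ) (N' : Set X) (l' r' : ℝ) : Prop :=
  (∀ x ∈ N, l' ≤ p (f x) → p (f x) ≤ r' → f x ∈ N') ∧
  (((∀ x ∈ N, p x = l → p (f x) ≤ l') ∧ (∀ x ∈ N, p x = r → r' ≤ p (f x))) ∨
   ((∀ x ∈ N, p x = l → r' ≤ p (f x)) ∧ (∀ x ∈ N, p x = r → p (f x) ≤ l')))

/-- Intermediate value theorem for two levels. -/
theorem ivt2 (g : ℝ → ℝ) (a b l r : ℝ) (hab : a ≤ b) (hlr : l ≤ r)
    (hg : ContinuousOn g (Icc a b)) (ha : g a ≤ l) (hb : r ≤ g b) :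
    ∃ a' b', a ≤ a' ∧ a' ≤ b' ∧ b' ≤ b ∧ g a' = l ∧ g b' = r ∧
      ∀ t ∈ Icc a' b', l ≤ g t ∧ g t ≤ r := by
  -- the first time of the level `r`
  obtain ⟨S, hS⟩ : ∃ S : Set ℝ, S = Icc a b ∩ g ⁻¹' (Ici r) := ⟨_, rfl⟩
  have hScl : IsClosed S := by
    rw [hS]
    exact hg.preimage_isClosed_of_isClosed isClosed_Icc isClosed_Ici
  have hScomp : IsCompact S := by
    refine isCompact_Icc.of_isClosed_subset hScl (?_ : S ⊆ Icc a b)
    rw [hS]
    exact inter_subset_left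
  have hSne : S.Nonempty := ⟨b, by rw [hS]; exact ⟨right_mem_Icc.2 hab, hb⟩⟩
  obtain ⟨b', hb'⟩ := hScomp.exists_isLeast hSne
  have hb'S : b' ∈ Icc a b ∩ g ⁻¹' (Ici r) := by rw [← hS]; exact hb'.1
  have hlt : ∀ t, a ≤ t → t < b' → g t < r := by
    intro t hat htb
    by_contra hcon
    push Not at hcon
    have htS : t ∈ S := by
      rw [hS]
      exact ⟨⟨hat, htb.le.trans hb'S.1.2⟩, hcon⟩
    exact absurd (hb'.2 htS) (not_le.2 htb)
  have hgb' : g b' = r := by
    refine le_antisymm ?_ hb'S.2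
    by_contra hcon
    push Not at hcon
    obtain ⟨c, hc, hgc⟩ := intermediate_value_Icc hb'S.1.1
      (hg.mono (Icc_subset_Icc le_rfl hb'S.1.2)) ⟨ha.trans hlr, hcon.le⟩
    rcases eq_or_lt_of_le hc.2 with h | h
    · rw [h] at hgc
      linarith
    · have := hlt c hc.1 h
      linarith
  -- the last time of the level `l` before
  obtain ⟨T, hT⟩ : ∃ T : Set ℝ, T = Icc a b' ∩ g ⁻¹' (Iic l) := ⟨_, rfl⟩
  have hgm : ContinuousOn g (Icc a b') := hg.mono (Icc_subset_Icc le_rfl hb'S.1.2)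
  have hTcl : IsClosed T := by
    rw [hT]
    exact hgm.preimage_isClosed_of_isClosed isClosed_Icc isClosed_Iic
  have hTcomp : IsCompact T := by
    refine isCompact_Icc.of_isClosed_subset hTcl (?_ : T ⊆ Icc a b')
    rw [hT]
    exact inter_subset_left
  have hTne : T.Nonempty := ⟨a, by rw [hT]; exact ⟨left_mem_Icc.2 hb'S.1.1, ha⟩⟩
  obtain ⟨a', ha'⟩ := hTcomp.exists_isGreatest hTne
  have ha'T : a' ∈ Icc a b' ∩ g ⁻¹' (Iic l) := by rw [← hT]; exact ha'.1
  have hgt : ∀ t, a' < t → t ≤ b' → l < g t := by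
    intro t hat htb
    by_contra hcon
    push Not at hcon
    have htT : t ∈ T := by
      rw [hT]
      exact ⟨⟨ha'T.1.1.trans hat.le, htb⟩, hcon⟩
    exact absurd (ha'.2 htT) (not_le.2 hat)
  have hga' : g a' = l := by
    refine le_antisymm ha'T.2 ?_
    by_contra hcon
    push Not at hcon
    obtain ⟨c, hc, hgc⟩ := intermediate_value_Icc ha'T.1.2
      (hgm.mono (Icc_subset_Icc ha'T.1.1 le_rfl)) ⟨hcon.le, by rw [hgb']; exact hlr⟩
    rcases eq_or_lt_of_le hc.1 with h | h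
    · rw [← h] at hgc
      linarith
    · have := hgt c h hc.2
      linarith
  refine ⟨a', b', ha'T.1.1, ha'T.1.2, hb'S.1.2, hga', hgb', fun t ht => ⟨?_, ?_⟩⟩
  · rcases eq_or_lt_of_le ht.1 with h | h
    · rw [← h, hga']
    · exact (hgt t h ht.2).le
  · rcases eq_or_lt_of_le ht.2 with h | h
    · rw [h, hgb']
    · exact (hlt t (ha'T.1.1.trans ht.1) h).le

/-- The image of a crossing curve contains a crossing curve. -/
theorem Cross.image {f : X → X} (hf : Continuous f) {p : X → ℝ} (hp : Continuous p)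
    {N N' : Set X} {l r l' r' : ℝ} (hlr : l' ≤ r') (hcov : Cov f p N l r N' l' r')
    {γ : ℝ → X} {a b : ℝ} (h : Cross p N l r γ a b) :
    ∃ a' b', a ≤ a' ∧ b' ≤ b ∧ Cross p N' l' r' (fun t => f (γ t)) a' b' := by
  obtain ⟨hab, hγ, hN, hlev⟩ := h
  obtain ⟨hin, hside⟩ := hcov
  have hγ' : ContinuousOn (fun t => f (γ t)) (Icc a b) := hf.comp_continuousOn hγ
  have hg : ContinuousOn (fun t => p (f (γ t))) (Icc a b) := hp.comp_continuousOn hγ'
  have haN := hN a (left_mem_Icc.2 hab)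
  have hbN := hN b (right_mem_Icc.2 hab)
  -- the image increases or decreases
  have key : (p (f (γ a)) ≤ l' ∧ r' ≤ p (f (γ b))) ∨ (r' ≤ p (f (γ a)) ∧ p (f (γ b)) ≤ l') := by
    rcases hside with ⟨h1, h2⟩ | ⟨h1, h2⟩ <;> rcases hlev with ⟨h3, h4⟩ | ⟨h3, h4⟩
    · exact Or.inl ⟨h1 _ haN h3, h2 _ hbN h4⟩
    · exact Or.inr ⟨h2 _ haN h3, h1 _ hbN h4⟩
    · exact Or.inr ⟨h1 _ haN h3, h2 _ hbN h4⟩
    · exact Or.inl ⟨h2 _ haN h3, h1 _ hbN h4⟩
  rcases key with ⟨h1, h2⟩ | ⟨h1, h2⟩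
  · obtain ⟨a', b', h3, h4, h5, h6, h7, h8⟩ := ivt2 (fun t => p (f (γ t))) a b l' r' hab hlr hg h1 h2
    have hsub : Icc a' b' ⊆ Icc a b := Icc_subset_Icc h3 h5
    exact ⟨a', b', h3, h5, h4, hγ'.mono hsub,
      fun t ht => hin _ (hN t (hsub ht)) (h8 t ht).1 (h8 t ht).2, Or.inl ⟨h6, h7⟩⟩
  · obtain ⟨a', b', h3, h4, h5, h6, h7, h8⟩ := ivt2 (fun t => - p (f (γ t))) a b (-r') (-l') hab
      (neg_le_neg hlr) hg.neg (neg_le_neg h1) (neg_le_neg h2)
    have hsub : Icc a' b' ⊆ Icc a b := Icc_subset_Icc h3 h5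
    refine ⟨a', b', h3, h5, h4, hγ'.mono hsub, fun t ht => ?_, Or.inr ⟨neg_inj.1 h6, neg_inj.1 h7⟩⟩
    have h9 := h8 t ht
    exact hin _ (hN t (hsub ht)) (neg_le_neg_iff.1 h9.2) (neg_le_neg_iff.1 h9.1)

/-! ## The horseshoe -/

section

variable {V : Type} [Fintype V] (f : X → X) (p : X → ℝ) (N : V → Set X) (l r : V → ℝ)
  (E : V → V → Prop) (w : V → ℝ) (lam : ℝ)

/-- The hypotheses of the theorem. -/
structure Horse : Prop where
  cf : Continuous f
  cp : Continuous p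
  comp : ∀ v, IsCompact (N v)
  lr : ∀ v, l v ≤ r v
  cov : ∀ v v', E v v' → Cov f p (N v) (l v) (r v) (N v') (l v') (r v')
  disj : ∀ u v v', E u v → E u v' → v ≠ v' → Disjoint (N v) (N v')
  w0 : ∀ v, 0 ≤ w v
  lam0 : 0 < lam
  grow : ∀ v, ∀ S : Finset V, (∀ v', v' ∈ S ↔ E v v') → lam * w v ≤ ∑ v' ∈ S, w v'

variable {f p N l r E w lam}

/-- The union of the sets. -/
def UN (N : V → Set X) : Set X := ⋃ v, N v

theorem Horse.closed (h : Horse f p N l r E w lam) : IsCompact (UN N) :=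
  isCompact_iUnion fun v => h.comp v

/-- a successor with positive weight -/
theorem Horse.succ (h : Horse f p N l r E w lam) (v : V) (hv : 0 < w v) :
    ∃ v', E v v' ∧ 0 < w v' := by
  classical
  by_contra hcon
  push Not at hcon
  have h1 := h.grow v (Finset.univ.filter fun v' => E v v') (fun v' => by simp)
  have h2 : ∑ v' ∈ Finset.univ.filter (fun v' => E v v'), w v' ≤ 0 :=
    Finset.sum_nonpos fun v' hv' => hcon v' (Finset.mem_filter.1 hv').2
  have h3 : 0 < lam * w v := mul_pos h.lam0 hv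
  linarith

/-- finitely many iterates -/
theorem Horse.finite_orbit (h : Horse f p N l r E w lam) (n : ℕ) : ∀ (v : V), 0 < w v →
    ∀ (γ : ℝ → X) (a b : ℝ), Cross p (N v) (l v) (r v) γ a b →
    ∃ t ∈ Icc a b, ∀ k ≤ n, f^[k] (γ t) ∈ UN N := by
  induction n with
  | zero =>
    intro v _ γ a b hc
    refine ⟨a, left_mem_Icc.2 hc.1, fun k hk => ?_⟩
    have hk0 : k = 0 := by omega
    subst hk0
    exact mem_iUnion.2 ⟨v, hc.2.2.1 a (left_mem_Icc.2 hc.1)⟩
  | succ n ih =>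
    intro v hv γ a b hc
    obtain ⟨v', hE, hv'⟩ := h.succ v hv
    obtain ⟨a', b', h1, h2, h3⟩ := Cross.image h.cf h.cp (h.lr v') (h.cov v v' hE) hc
    obtain ⟨t, ht, h4⟩ := ih v' hv' _ a' b' h3
    have hsub : Icc a' b' ⊆ Icc a b := Icc_subset_Icc h1 h2
    refine ⟨t, hsub ht, fun k hk => ?_⟩
    rcases k with _ | k
    · exact mem_iUnion.2 ⟨v, hc.2.2.1 t (hsub ht)⟩
    · have h5 := h4 k (by omega)
      rw [Function.iterate_succ_apply]
      exact h5

/-- The compact invariant set. -/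
def KN (f : X → X) (N : V → Set X) : Set X := {x | ∀ k, f^[k] x ∈ UN N}

theorem Horse.infinite_orbit (h : Horse f p N l r E w lam) (v : V) (hv : 0 < w v)
    (γ : ℝ → X) (a b : ℝ) (hc : Cross p (N v) (l v) (r v) γ a b) :
    ∃ t ∈ Icc a b, γ t ∈ KN f N := by
  obtain ⟨C, hC⟩ : ∃ C : ℕ → Set ℝ, C = fun n => {t | t ∈ Icc a b ∧ ∀ k ≤ n, f^[k] (γ t) ∈ UN N} :=
    ⟨_, rfl⟩
  have hcl : ∀ n, IsClosed (C n) := by
    intro n
    have h1 : C n = Icc a b ∩ ⋂ k : ℕ, ⋂ _ : k ≤ n, (Icc a b ∩ (fun t => f^[k] (γ t)) ⁻¹' UN N) := by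
      rw [hC]
      ext t
      simp only [mem_ofPred_eq, mem_inter_iff, mem_iInter, mem_preimage]
      exact ⟨fun h2 => ⟨h2.1, fun k hk => ⟨h2.1, h2.2 k hk⟩⟩, fun h2 => ⟨h2.1, fun k hk => (h2.2 k hk).2⟩⟩
    rw [h1]
    refine isClosed_Icc.inter (isClosed_iInter fun k => isClosed_iInter fun _ => ?_)
    exact ((h.cf.iterate k).comp_continuousOn hc.2.1).preimage_isClosed_of_isClosed isClosed_Icc
      h.closed.isClosed
  have hne : (⋂ n, C n).Nonempty := by
    apply IsCompact.nonempty_iInter_of_sequence_nonempty_isCompact_isClosed C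
    · intro n t ht
      rw [hC] at ht ⊢
      exact ⟨ht.1, fun k hk => ht.2 k (by omega)⟩
    · intro n
      obtain ⟨t, h1, h2⟩ := h.finite_orbit n v hv γ a b hc
      refine ⟨t, ?_⟩
      rw [hC]
      exact ⟨h1, h2⟩
    · refine isCompact_Icc.of_isClosed_subset (hcl 0) (?_ : C 0 ⊆ Icc a b)
      intro t ht
      rw [hC] at ht
      exact ht.1
    · exact hcl
  obtain ⟨t, ht⟩ := hne
  have ht' : ∀ n, t ∈ Icc a b ∧ ∀ k ≤ n, f^[k] (γ t) ∈ UN N := by
    intro n
    have := mem_iInter.1 ht n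
    rw [hC] at this
    exact this
  exact ⟨t, (ht' 0).1, fun k => (ht' k).2 k le_rfl⟩

/-- Many points with different itineraries. -/
theorem Horse.many (h : Horse f p N l r E w lam) (A : ℝ) (hA : ∀ v, w v ≤ A) (n : ℕ) :
    ∀ (v : V), ∀ (γ : ℝ → X) (a b : ℝ), Cross p (N v) (l v) (r v) γ a b →
    ∃ T : Finset ℝ, (∀ t ∈ T, t ∈ Icc a b ∧ γ t ∈ KN f N) ∧ lam ^ n * w v ≤ A * (T.card : ℝ) ∧
      ∀ t ∈ T, ∀ t' ∈ T, t ≠ t' → ∃ k ≤ n, ∃ i j, Disjoint (N i) (N j) ∧
        f^[k] (γ t) ∈ N i ∧ f^[k] (γ t') ∈ N j := by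
  classical
  induction n with
  | zero =>
    intro v γ a b hc
    rcases (h.w0 v).eq_or_lt with hv | hv
    · exact ⟨∅, by simp, by simp [← hv], by simp⟩
    · obtain ⟨t, h1, h2⟩ := h.infinite_orbit v hv γ a b hc
      refine ⟨{t}, ?_, ?_, ?_⟩
      · intro t' ht'
        rw [Finset.mem_singleton] at ht'
        subst ht'
        exact ⟨h1, h2⟩
      · have := hA v
        simpa using this
      · intro s hs s' hs' hne
        rw [Finset.mem_singleton] at hs hs'
        exact absurd (hs.trans hs'.symm) hne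
  | succ n ih =>
    intro v γ a b hc
    obtain ⟨S, hS⟩ : ∃ S : Finset V, S = Finset.univ.filter fun v' => E v v' := ⟨_, rfl⟩
    have hSm : ∀ v', v' ∈ S ↔ E v v' := fun v' => by rw [hS]; simp
    have hex : ∀ v' : V, ∃ T : Finset ℝ, v' ∈ S →
        (∀ t ∈ T, t ∈ Icc a b ∧ f (γ t) ∈ N v' ∧ γ t ∈ KN f N) ∧
        lam ^ n * w v' ≤ A * (T.card : ℝ) ∧
        ∀ t ∈ T, ∀ t' ∈ T, t ≠ t' → ∃ k ≤ n + 1, ∃ i j, Disjoint (N i) (N j) ∧
          f^[k] (γ t) ∈ N i ∧ f^[k] (γ t') ∈ N j := by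
      intro v'
      by_cases hv' : v' ∈ S
      · obtain ⟨a', b', h1, h2, h3⟩ :=
          Cross.image h.cf h.cp (h.lr v') (h.cov v v' ((hSm v').1 hv')) hc
        have hsub : Icc a' b' ⊆ Icc a b := Icc_subset_Icc h1 h2
        obtain ⟨T, hT1, hT2, hT3⟩ := ih v' _ a' b' h3
        refine ⟨T, fun _ => ⟨fun t ht => ⟨hsub (hT1 t ht).1, h3.2.2.1 t (hT1 t ht).1, ?_⟩, hT2, ?_⟩⟩
        · intro k
          rcases k with _ | k
          · exact mem_iUnion.2 ⟨v, hc.2.2.1 t (hsub (hT1 t ht).1)⟩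
          · rw [Function.iterate_succ_apply]
            exact (hT1 t ht).2 k
        · intro t ht t' ht' hne
          obtain ⟨k, hk, i, j, h4, h5, h6⟩ := hT3 t ht t' ht' hne
          refine ⟨k + 1, by omega, i, j, h4, ?_, ?_⟩
          · rw [Function.iterate_succ_apply]
            exact h5
          · rw [Function.iterate_succ_apply]
            exact h6
      · exact ⟨∅, fun h' => absurd h' hv'⟩
    choose T hT using hex
    have hdisj : ∀ v₁ ∈ S, ∀ v₂ ∈ S, v₁ ≠ v₂ → Disjoint (T v₁) (T v₂) := by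
      intro v₁ h1 v₂ h2 hne
      rw [Finset.disjoint_left]
      intro t ht1 ht2
      have h3 := ((hT v₁ h1).1 t ht1).2.1
      have h4 := ((hT v₂ h2).1 t ht2).2.1
      exact Set.disjoint_left.1 (h.disj v v₁ v₂ ((hSm v₁).1 h1) ((hSm v₂).1 h2) hne) h3 h4
    refine ⟨S.biUnion T, ?_, ?_, ?_⟩
    · intro t ht
      obtain ⟨v', hv', ht'⟩ := Finset.mem_biUnion.1 ht
      exact ⟨((hT v' hv').1 t ht').1, ((hT v' hv').1 t ht').2.2⟩
    · rw [Finset.card_biUnion hdisj]
      push_cast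
      rw [Finset.mul_sum]
      have h1 : lam * w v ≤ ∑ v' ∈ S, w v' := h.grow v S hSm
      have h2 : ∑ v' ∈ S, lam ^ n * w v' ≤ ∑ v' ∈ S, A * ((T v').card : ℝ) :=
        Finset.sum_le_sum fun v' hv' => (hT v' hv').2.1
      rw [← Finset.mul_sum] at h2
      have h3 : (0 : ℝ) ≤ lam ^ n := pow_nonneg h.lam0.le n
      calc lam ^ (n + 1) * w v = lam ^ n * (lam * w v) := by ring
        _ ≤ lam ^ n * ∑ v' ∈ S, w v' := mul_le_mul_of_nonneg_left h1 h3
        _ ≤ _ := h2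
    · intro t ht t' ht' hne
      obtain ⟨v₁, h1, ht1⟩ := Finset.mem_biUnion.1 ht
      obtain ⟨v₂, h2, ht2⟩ := Finset.mem_biUnion.1 ht'
      by_cases hv : v₁ = v₂
      · subst hv
        exact (hT v₁ h1).2.2 t ht1 t' ht2 hne
      · exact ⟨1, by omega, v₁, v₂, h.disj v v₁ v₂ ((hSm v₁).1 h1) ((hSm v₂).1 h2) hv,
          ((hT v₁ h1).1 t ht1).2.1, ((hT v₂ h2).1 t' ht2).2.1⟩

/-- uniform distance of the disjoint sets -/
theorem Horse.dist (h : Horse f p N l r E w lam) :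
    ∃ δ : ℝ, 0 < δ ∧ ∀ i j, Disjoint (N i) (N j) → ∀ x ∈ N i, ∀ y ∈ N j, δ ≤ Dist.dist x y := by
  classical
  have h1 : ∀ q : V × V, ∃ δ : ℝ, 0 < δ ∧ (Disjoint (N q.1) (N q.2) →
      ∀ x ∈ N q.1, ∀ y ∈ N q.2, δ ≤ Dist.dist x y) := by
    intro q
    by_cases hq : Disjoint (N q.1) (N q.2)
    · obtain ⟨s, hs, h2⟩ := Metric.exists_pos_forall_lt_edist (h.comp q.1) (h.comp q.2).isClosed hq
      refine ⟨s, NNReal.coe_pos.2 hs, fun _ x hx y hy => ?_⟩
      have h3 := h2 x hx y hy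
      rw [edist_dist] at h3
      have h4 := (ENNReal.lt_ofReal_iff_toReal_lt ENNReal.coe_ne_top).1 h3
      exact h4.le
    · exact ⟨1, one_pos, fun h' => absurd h' hq⟩
  choose d hd0 hd using h1
  rcases isEmpty_or_nonempty V with hV | hV
  · exact ⟨1, one_pos, fun i => (hV.false i).elim⟩
  · obtain ⟨q, hq⟩ := Finite.exists_min d
    exact ⟨d q, hd0 q, fun i j hij x hx y hy => (hq (i, j)).trans (hd (i, j) hij x hx y hy)⟩

theorem Horse.isCompact_KN (h : Horse f p N l r E w lam) : IsCompact (KN f N) := by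
  have h1 : KN f N = ⋂ k : ℕ, f^[k] ⁻¹' UN N := by
    ext x
    simp [KN]
  have hcl : IsClosed (KN f N) := by
    rw [h1]
    exact isClosed_iInter fun k => h.closed.isClosed.preimage (h.cf.iterate k)
  refine h.closed.of_isClosed_subset hcl fun x hx => ?_
  exact hx 0

theorem mapsTo_KN : MapsTo f (KN f N) (KN f N) := by
  intro x hx k
  have := hx (k + 1)
  rw [Function.iterate_succ_apply] at this
  exact this

/-- THEOREM L. -/
theorem Horse.entropy (h : Horse f p N l r E w lam) (v : V) (hv : 0 < w v) (γ : ℝ → X) (a b : ℝ)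
    (hc : Cross p (N v) (l v) (r v) γ a b) :
    ((Real.log lam : ℝ) : EReal) ≤ Dynamics.coverEntropy f (KN f N) := by
  classical
  obtain ⟨δ, hδ, hdist⟩ := h.dist
  obtain ⟨U, hU⟩ : ∃ U : Set (X × X), U = {q | Dist.dist q.1 q.2 < δ / 2} := ⟨_, rfl⟩
  have hUm : U ∈ uniformity X := by
    rw [hU]
    exact Metric.dist_mem_uniformity (half_pos hδ)
  refine le_trans ?_ (Dynamics.netEntropyEntourage_le_coverEntropy f (KN f N) hUm)
  -- a bound of the weights
  obtain ⟨A, hA⟩ : ∃ A : ℝ, ∀ v, w v ≤ A := by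
    obtain ⟨v', hv'⟩ : ∃ v', ∀ v, w v ≤ w v' := by
      have : Nonempty V := ⟨v⟩
      exact Finite.exists_max w
    exact ⟨w v', hv'⟩
  have hA0 : 0 < A := hv.trans_le (hA v)
  have hmain : ∀ n : ℕ, lam ^ n * w v / A ≤
      ((Dynamics.netMaxcard f (KN f N) U (n + 1) : ℕ∞) : ENNReal).toReal ∨
      (Dynamics.netMaxcard f (KN f N) U (n + 1) : ℕ∞) = ⊤ := by
    intro n
    by_cases htop : (Dynamics.netMaxcard f (KN f N) U (n + 1) : ℕ∞) = ⊤
    · exact Or.inr htop
    · left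
      obtain ⟨T, hT1, hT2, hT3⟩ := h.many A hA n v γ a b hc
      have hinj : Set.InjOn γ T := by
        intro t ht t' ht' heq
        by_contra hne
        obtain ⟨k, -, i, j, h4, h5, h6⟩ := hT3 t ht t' ht' hne
        rw [heq] at h5
        exact Set.disjoint_left.1 h4 h5 h6
      have hnet : Dynamics.IsDynNetIn f (KN f N) U (n + 1) (T.image γ : Finset X) := by
        constructor
        · intro x hx
          rw [Finset.coe_image] at hx
          obtain ⟨t, ht, rfl⟩ := hx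
          exact (hT1 t ht).2
        · intro x hx y hy hxy
          rw [Finset.coe_image] at hx hy
          obtain ⟨t, ht, rfl⟩ := hx
          obtain ⟨t', ht', rfl⟩ := hy
          have hne : t ≠ t' := fun h' => hxy (by rw [h'])
          obtain ⟨k, hk, i, j, h4, h5, h6⟩ := hT3 t ht t' ht' hne
          rw [Function.onFun, Set.disjoint_left]
          intro z hz1 hz2
          rw [Dynamics.mem_ball_dynEntourage] at hz1 hz2
          have h7 := hz1 k (by omega)
          have h8 := hz2 k (by omega)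
          rw [hU] at h7 h8
          have h9 : Dist.dist (f^[k] (γ t)) (f^[k] z) < δ / 2 := h7
          have h10 : Dist.dist (f^[k] (γ t')) (f^[k] z) < δ / 2 := h8
          have h11 := hdist i j h4 _ h5 _ h6
          have h12 := dist_triangle_right (f^[k] (γ t)) (f^[k] (γ t')) (f^[k] z)
          linarith
      have hcard := hnet.card_le_netMaxcard
      rw [Finset.card_image_of_injOn hinj] at hcard
      have h1 : (T.card : ℝ) ≤
          ((Dynamics.netMaxcard f (KN f N) U (n + 1) : ℕ∞) : ENNReal).toReal := by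
        obtain ⟨m, hm⟩ := ENat.ne_top_iff_exists.1 htop
        rw [← hm] at hcard ⊢
        have h2 : T.card ≤ m := by exact_mod_cast hcard
        simp only [ENat.toENNReal_coe, ENNReal.toReal_natCast]
        exact_mod_cast h2
      rw [div_le_iff₀ hA0]
      calc lam ^ n * w v ≤ A * (T.card : ℝ) := hT2
        _ ≤ A * _ := mul_le_mul_of_nonneg_left h1 hA0.le
        _ = _ := mul_comm _ _
  -- the growth rate
  have hlog : ((Real.log lam : ℝ) : EReal) = ENNReal.log (ENNReal.ofReal lam) := by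
    rw [ENNReal.log_ofReal_of_pos h.lam0]
  rw [hlog, ← ExpGrowth.expGrowthSup_pow (b := ENNReal.ofReal lam)]
  have hb : ENNReal.ofReal (w v / (A * lam)) ≠ 0 := by
    rw [Ne, ENNReal.ofReal_eq_zero, not_le]
    exact div_pos hv (mul_pos hA0 h.lam0)
  refine ExpGrowth.expGrowthSup_of_eventually_ge hb ?_
  filter_upwards [eventually_ge_atTop 1] with n hn
  obtain ⟨m, rfl⟩ : ∃ m, n = m + 1 := ⟨n - 1, by omega⟩
  rcases hmain m with h1 | h1
  · rw [← ENNReal.ofReal_pow h.lam0.le, ← ENNReal.ofReal_mul (div_nonneg hv.le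
      (mul_nonneg hA0.le h.lam0.le))]
    refine ENNReal.ofReal_le_of_le_toReal ?_
    refine le_trans (le_of_eq ?_) h1
    have := h.lam0.ne'
    have := hA0.ne'
    field_simp
    ring
  · rw [h1]
    exact le_top

end

end Pool.Agent.Work.MP_99322d_an.L
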