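import Pool.Agent.Work.MP_99322d_an.Defs
import Pool.Agent.Work.MP_99322d_an.L.Cover

/-!
# Theory L for the Henon map (helper50)
-/

set_option autoImplicit false

open Set Filter Topology

namespace Pool.Agent.Work.MP_99322d_an.L

/-- THEOREM L for the Henon map: a horseshoe with growth rate `lam` gives `log lam ≤ h c b`. -/
theorem le_h_of_horse {c b : ℝ} {V : Type} [Fintype V] {p : ℝ × ℝ → ℝ} {N : V → Set (ℝ × ℝ)}
    {l r : V → ℝ} {E : V → V → Prop} {w : V → ℝ} {lam : ℝ}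
    (hh : Horse (hen c b) p N l r E w lam) (v : V) (hv : 0 < w v) (γ : ℝ → ℝ × ℝ) (s t : ℝ)
    (hc : Cross p (N v) (l v) (r v) γ s t) : ((Real.log lam : ℝ) : EReal) ≤ h c b :=
  (hh.entropy v hv γ s t hc).trans (le_h c b _ hh.isCompact_KN mapsTo_KN)

end Pool.Agent.Work.MP_99322d_an.L
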