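import Pool.Agent.Work.MP_99322d_an.Defs
import Pool.Agent.Work.MP_99322d_an.L.Cover
import Pool.Agent.Work.MP_99322d_an.L.Hen

/-!
# Integer checker for part L (helper50)

Scale `SC = 2^96`. Side parameter `τ ∈ [0,1]`; end points and parameters are affine in `τ`.
-/

set_option autoImplicit false

open Set Filter Topology

namespace Pool.Agent.Work.MP_99322d_an.L

/-- the scale `2^96` -/
def SC : ℤ := 79228162514264337593543950336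

/-- Newton's iteration for the square root -/
def newt : ℕ → ℕ → ℕ → ℕ
  | 0, _, h => h
  | k + 1, N, h => newt k N ((h + N / h) / 2)

/-- approximate integer square root -/
def isq (N : ℕ) : ℕ :=
  if 3138550867693340381917894711603833208051177722232017256448 ≤ N then newt 6 N 158456325028528675187087900672
  else if 392318858461667547739736838950479151006397215279002157056 ≤ N then newt 6 N 56022770880778163456284033024
  else if 95780971304118053647396689196894323976171195136475136 ≤ N then newt 12 N 19807040628566084398385987584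
  else newt 30 N 309485009821345068724781056

/-- lower bound of the square root -/
def rlo (n : ℤ) : ℤ :=
  if (n.toNat / (isq n.toNat + 1)) * (n.toNat / (isq n.toNat + 1)) ≤ n.toNat then
    ((n.toNat / (isq n.toNat + 1) : ℕ) : ℤ) else 0

/-- upper bound of the square root -/
def rhi (n : ℤ) : ℤ :=
  if n.toNat ≤ (isq n.toNat + 1) * (isq n.toNat + 1) then ((isq n.toNat + 1 : ℕ) : ℤ)
  else ((n.toNat + 1 : ℕ) : ℤ)

theorem rlo_nonneg (n : ℤ) : 0 ≤ rlo n := by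
  unfold rlo
  split_ifs
  · exact Int.natCast_nonneg _
  · exact le_rfl

theorem rhi_pos (n : ℤ) : 0 < rhi n := by
  unfold rhi
  split_ifs
  · exact Int.natCast_pos.2 (Nat.succ_pos _)
  · exact Int.natCast_pos.2 (Nat.succ_pos _)

theorem rlo_sq (n : ℤ) : rlo n * rlo n ≤ max n 0 := by
  unfold rlo
  split_ifs with h
  · have h1 : ((n.toNat : ℕ) : ℤ) = max n 0 := Int.toNat_eq_max n
    rw [← h1]
    exact_mod_cast h
  · simp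

theorem rhi_sq (n : ℤ) : n ≤ rhi n * rhi n := by
  have h1 : n ≤ ((n.toNat : ℕ) : ℤ) := Int.self_le_toNat n
  refine h1.trans ?_
  unfold rhi
  split_ifs with h
  · exact_mod_cast h
  · have h2 : n.toNat ≤ (n.toNat + 1) * (n.toNat + 1) := by nlinarith
    exact_mod_cast h2

theorem le_of_rlo {n : ℤ} {u : ℝ} (hu : 0 ≤ u) (h : (n : ℝ) ≤ u ^ 2) : (rlo n : ℝ) ≤ u := by
  have h1 : ((rlo n * rlo n : ℤ) : ℝ) ≤ ((max n 0 : ℤ) : ℝ) := by exact_mod_cast rlo_sq n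
  have h2 : (rlo n : ℝ) ^ 2 ≤ u ^ 2 := by
    push_cast at h1
    have h3 : max (n : ℝ) 0 ≤ u ^ 2 := max_le h (sq_nonneg u)
    nlinarith [h1, h3]
  exact abs_le_of_sq_le_sq' h2 hu |>.2

theorem le_rhi_of {n : ℤ} {u : ℝ} (h : u ^ 2 ≤ (n : ℝ)) : u ≤ (rhi n : ℝ) := by
  have h1 : (n : ℝ) ≤ ((rhi n * rhi n : ℤ) : ℝ) := by exact_mod_cast rhi_sq n
  have h2 : u ^ 2 ≤ (rhi n : ℝ) ^ 2 := by
    push_cast at h1
    nlinarith [h1, h]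
  have h3 : (0 : ℝ) ≤ (rhi n : ℝ) := by exact_mod_cast (rhi_pos n).le
  exact abs_le_of_sq_le_sq' h2 h3 |>.2

theorem chord_lo {a0 a1 τ u : ℝ} (hτ0 : 0 ≤ τ) (hτ1 : τ ≤ 1) (hu : 0 ≤ u)
    (h : (1 - τ) * a0 ^ 2 + τ * a1 ^ 2 ≤ u ^ 2) : (1 - τ) * a0 + τ * a1 ≤ u := by
  have h1 : ((1 - τ) * a0 + τ * a1) ^ 2 ≤ u ^ 2 := by
    have h2 : 0 ≤ τ * (1 - τ) * (a1 - a0) ^ 2 :=
      mul_nonneg (mul_nonneg hτ0 (by linarith)) (sq_nonneg _)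
    nlinarith [h2, h]
  exact abs_le_of_sq_le_sq' h1 hu |>.2

theorem chord_hi {h0 h1 τ u : ℝ} (hs : 0 < h0 + h1)
    (h : u ^ 2 ≤ (1 - τ) * h0 ^ 2 + τ * h1 ^ 2) :
    u ≤ (1 - τ) * h0 + τ * h1 + (h1 - h0) ^ 2 / (4 * (h0 + h1)) := by
  have h2 : u * (h0 + h1) ≤ ((1 - τ) * h0 + τ * h1) * (h0 + h1) + (h1 - h0) ^ 2 / 4 := by
    have h3 : 0 ≤ (2 * u - h0 - h1) ^ 2 := sq_nonneg _
    nlinarith [h3, h]
  have h4 : (h1 - h0) ^ 2 / (4 * (h0 + h1)) = ((h1 - h0) ^ 2 / 4) / (h0 + h1) := by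
    field_simp
  rw [h4, ← sub_le_iff_le_add', le_div_iff₀ hs]
  linarith

/-- integer interval at scale `SC` -/
structure Iv where
  lo : ℤ
  hi : ℤ

/-- membership of a real number -/
def Iv.mem (I : Iv) (x : ℝ) : Prop := (I.lo : ℝ) ≤ SC * x ∧ SC * x ≤ (I.hi : ℝ)

/-- the sign classes: `0` = `[0,2]`, `1` = `[-2,0]`, other = `[-2,2]` -/
def Sg (s : ℕ) : Set ℝ := {x | (if s = 0 then 0 else -2) ≤ x ∧ x ≤ (if s = 1 then 0 else 2)}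

/-- signed interval from bounds of the absolute value -/
def sgn (s : ℕ) (lo hi : ℤ) : Iv :=
  if s = 0 then ⟨lo, hi⟩ else if s = 1 then ⟨-hi, -lo⟩ else ⟨-hi, hi⟩

theorem SC_pos : (0 : ℝ) < (SC : ℝ) := by
  have : (0 : ℤ) < SC := by decide
  exact_mod_cast this

theorem sgn_mem {s : ℕ} {lo hi : ℤ} {x : ℝ} (hx : x ∈ Sg s) (h1 : (lo : ℝ) ≤ SC * |x|)
    (h2 : SC * |x| ≤ (hi : ℝ)) : (sgn s lo hi).mem x := by
  have hS := SC_pos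
  unfold sgn
  simp only [Sg, mem_ofPred_eq] at hx
  split_ifs with h3 h4
  · rw [if_pos h3] at hx
    rw [abs_of_nonneg hx.1] at h1 h2
    exact ⟨h1, h2⟩
  · rw [if_neg h3, if_pos h4] at hx
    rw [abs_of_nonpos hx.2] at h1 h2
    constructor
    · push_cast
      linarith
    · push_cast
      linarith
  · constructor
    · push_cast
      have := neg_abs_le x
      nlinarith
    · have := le_abs_self x
      nlinarith

/-- lower bound of `b * x` at scale `SC^2` -/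
def mlo (blo bhi : ℤ) (I : Iv) : ℤ := if 0 ≤ I.lo then blo * I.lo else bhi * I.lo

/-- upper bound of `b * x` at scale `SC^2` -/
def mhi (blo bhi : ℤ) (I : Iv) : ℤ := if 0 ≤ I.hi then bhi * I.hi else blo * I.hi

theorem mlo_le {blo bhi : ℤ} {I : Iv} {b x : ℝ} (h0 : 0 ≤ b) (h1 : (blo : ℝ) ≤ SC * b)
    (h2 : SC * b ≤ (bhi : ℝ)) (hx : I.mem x) : (mlo blo bhi I : ℝ) ≤ SC ^ 2 * (b * x) := by
  have hS := SC_pos
  have hb : 0 ≤ (SC : ℝ) * b := mul_nonneg hS.le h0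
  have h3 : SC ^ 2 * (b * x) = (SC * b) * (SC * x) := by ring
  rw [h3]
  unfold mlo
  have h5 := hx.1
  split_ifs with h4
  · have h4' : (0 : ℝ) ≤ (I.lo : ℝ) := by exact_mod_cast h4
    push_cast
    calc (blo : ℝ) * I.lo ≤ (SC * b) * I.lo := mul_le_mul_of_nonneg_right h1 h4'
      _ ≤ _ := mul_le_mul_of_nonneg_left h5 hb
  · have h4' : (I.lo : ℝ) ≤ 0 := by
      have : I.lo ≤ 0 := by omega
      exact_mod_cast this
    push_cast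
    calc (bhi : ℝ) * I.lo ≤ (SC * b) * I.lo := mul_le_mul_of_nonpos_right h2 h4'
      _ ≤ _ := mul_le_mul_of_nonneg_left h5 hb

theorem le_mhi {blo bhi : ℤ} {I : Iv} {b x : ℝ} (h0 : 0 ≤ b) (h1 : (blo : ℝ) ≤ SC * b)
    (h2 : SC * b ≤ (bhi : ℝ)) (hx : I.mem x) : SC ^ 2 * (b * x) ≤ (mhi blo bhi I : ℝ) := by
  have hS := SC_pos
  have hb : 0 ≤ (SC : ℝ) * b := mul_nonneg hS.le h0
  have h3 : SC ^ 2 * (b * x) = (SC * b) * (SC * x) := by ring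
  rw [h3]
  unfold mhi
  have h5 := hx.2
  split_ifs with h4
  · have h4' : (0 : ℝ) ≤ (I.hi : ℝ) := by exact_mod_cast h4
    push_cast
    calc (SC * b) * (SC * x) ≤ (SC * b) * I.hi := mul_le_mul_of_nonneg_left h5 hb
      _ ≤ _ := mul_le_mul_of_nonneg_right h2 h4'
  · have h4' : (I.hi : ℝ) ≤ 0 := by
      have : I.hi ≤ 0 := by omega
      exact_mod_cast this
    push_cast
    calc (SC * b) * (SC * x) ≤ (SC * b) * I.hi := mul_le_mul_of_nonneg_left h5 hb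
      _ ≤ _ := mul_le_mul_of_nonpos_right h1 h4'

/-- parameters of a side: values at `τ = 0` and `τ = 1` at scale `SC` -/
structure Par where
  c0 : ℤ
  c1 : ℤ
  b0 : ℤ
  b1 : ℤ

/-- affine interpolation at scale `SC` -/
noncomputable def af (X0 X1 : ℤ) (τ : ℝ) : ℝ := ((1 - τ) * X0 + τ * X1) / SC

theorem SC_af (X0 X1 : ℤ) (τ : ℝ) : SC * af X0 X1 τ = (1 - τ) * X0 + τ * X1 := by
  unfold af
  have := SC_pos
  field_simp

theorem le_af {X0 X1 m : ℤ} {τ : ℝ} (h0 : 0 ≤ τ) (h1 : τ ≤ 1) (h2 : m ≤ X0) (h3 : m ≤ X1) :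
    (m : ℝ) ≤ SC * af X0 X1 τ := by
  rw [SC_af]
  have h4 : (m : ℝ) ≤ X0 := by exact_mod_cast h2
  have h5 : (m : ℝ) ≤ X1 := by exact_mod_cast h3
  nlinarith [mul_nonneg (sub_nonneg.2 h1) (sub_nonneg.2 h4), mul_nonneg h0 (sub_nonneg.2 h5)]

theorem af_le {X0 X1 m : ℤ} {τ : ℝ} (h0 : 0 ≤ τ) (h1 : τ ≤ 1) (h2 : X0 ≤ m) (h3 : X1 ≤ m) :
    SC * af X0 X1 τ ≤ (m : ℝ) := by
  rw [SC_af]
  have h4 : (X0 : ℝ) ≤ m := by exact_mod_cast h2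
  have h5 : (X1 : ℝ) ≤ m := by exact_mod_cast h3
  nlinarith [mul_nonneg (sub_nonneg.2 h1) (sub_nonneg.2 h4), mul_nonneg h0 (sub_nonneg.2 h5)]

/-- `D_{k+1}` from `D_k ∈ A`, `D_{k+2} ∈ Z` and its sign class -/
def dfrom (P : Par) (s : ℕ) (A Z : Iv) : Iv :=
  sgn s (rlo ((A.lo - max P.c0 P.c1) * SC + mlo (min P.b0 P.b1) (max P.b0 P.b1) Z))
    (rhi ((A.hi - min P.c0 P.c1) * SC + mhi (min P.b0 P.b1) (max P.b0 P.b1) Z))

theorem dfrom_mem {P : Par} {s : ℕ} {A Z : Iv} {τ y u w : ℝ} (h0 : 0 ≤ τ) (h1 : τ ≤ 1)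
    (hb : 0 ≤ af P.b0 P.b1 τ) (hu : A.mem u) (hw : Z.mem w) (hy : y ∈ Sg s)
    (h : y ^ 2 = u - af P.c0 P.c1 τ + af P.b0 P.b1 τ * w) : (dfrom P s A Z).mem y := by
  have hS := SC_pos
  have hb1 := le_af (τ := τ) h0 h1 (min_le_left P.b0 P.b1) (min_le_right P.b0 P.b1)
  have hb2 := af_le (τ := τ) h0 h1 (le_max_left P.b0 P.b1) (le_max_right P.b0 P.b1)
  have hc1 := le_af (τ := τ) h0 h1 (min_le_left P.c0 P.c1) (min_le_right P.c0 P.c1)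
  have hc2 := af_le (τ := τ) h0 h1 (le_max_left P.c0 P.c1) (le_max_right P.c0 P.c1)
  have hsq : (SC * |y|) ^ 2 = SC * (SC * u) - SC * (SC * af P.c0 P.c1 τ)
      + SC ^ 2 * (af P.b0 P.b1 τ * w) := by
    rw [mul_pow, sq_abs, h]
    ring
  refine sgn_mem hy ?_ ?_
  · refine le_of_rlo (mul_nonneg hS.le (abs_nonneg y)) ?_
    rw [hsq]
    have h2 := mlo_le hb hb1 hb2 hw
    have h3 := mul_le_mul_of_nonneg_left hu.1 hS.le
    have h4 := mul_le_mul_of_nonneg_left hc2 hS.le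
    rw [Int.cast_add, Int.cast_mul, Int.cast_sub]
    linarith
  · refine le_rhi_of ?_
    rw [hsq]
    have h2 := le_mhi hb hb1 hb2 hw
    have h3 := mul_le_mul_of_nonneg_left hu.2 hS.le
    have h4 := mul_le_mul_of_nonneg_left hc1 hS.le
    rw [Int.cast_add, Int.cast_mul, Int.cast_sub]
    linarith

/-- affine enclosure of `y = D_1` over the level `x(τ)` -/
structure Ya where
  l0 : ℤ
  l1 : ℤ
  u0 : ℤ
  u1 : ℤ

/-- `X * SC - C * SC + B * z` -/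
def qv (X C B z : ℤ) : ℤ := (X - C) * SC + B * z

/-- the loss of the upper chord bound -/
def loss (h0 h1 : ℤ) : ℤ := (h1 - h0) * (h1 - h0) / (4 * (h0 + h1)) + 1

/-- signed affine enclosure from `a0, a1` (lower) and `h0, h1` (upper) of the absolute value -/
def yas (s : ℕ) (a0 a1 h0 h1 : ℤ) : Ya :=
  if s = 0 then ⟨a0, a1, h0, h1⟩ else if s = 1 then ⟨-h0, -h1, -a0, -a1⟩ else ⟨-h0, -h1, h0, h1⟩

def yaff (P : Par) (s : ℕ) (X0 X1 : ℤ) (Z : Iv) : Ya :=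
  yas s
    (if 0 ≤ qv X0 P.c0 P.b0 Z.lo ∧ 0 ≤ qv X1 P.c1 P.b1 Z.lo then rlo (qv X0 P.c0 P.b0 Z.lo) else 0)
    (if 0 ≤ qv X0 P.c0 P.b0 Z.lo ∧ 0 ≤ qv X1 P.c1 P.b1 Z.lo then rlo (qv X1 P.c1 P.b1 Z.lo) else 0)
    (rhi (qv X0 P.c0 P.b0 Z.hi) + loss (rhi (qv X0 P.c0 P.b0 Z.hi)) (rhi (qv X1 P.c1 P.b1 Z.hi)))
    (rhi (qv X1 P.c1 P.b1 Z.hi) + loss (rhi (qv X0 P.c0 P.b0 Z.hi)) (rhi (qv X1 P.c1 P.b1 Z.hi)))

/-- meaning of the affine enclosure -/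
def Ya.mem (Y : Ya) (τ y : ℝ) : Prop :=
  (1 - τ) * (Y.l0 : ℝ) + τ * Y.l1 ≤ SC * y ∧ SC * y ≤ (1 - τ) * (Y.u0 : ℝ) + τ * Y.u1

theorem yas_mem {s : ℕ} {a0 a1 h0 h1 : ℤ} {τ y : ℝ} (hy : y ∈ Sg s)
    (h2 : (1 - τ) * (a0 : ℝ) + τ * a1 ≤ SC * |y|)
    (h3 : SC * |y| ≤ (1 - τ) * (h0 : ℝ) + τ * h1) : (yas s a0 a1 h0 h1).mem τ y := by
  have hS := SC_pos
  simp only [Sg, mem_ofPred_eq] at hy
  unfold yas
  split_ifs with h4 h5
  · rw [if_pos h4] at hy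
    rw [abs_of_nonneg hy.1] at h2 h3
    exact ⟨h2, h3⟩
  · rw [if_neg h4, if_pos h5] at hy
    rw [abs_of_nonpos hy.2] at h2 h3
    constructor
    · push_cast
      linarith
    · push_cast
      linarith
  · constructor
    · have := neg_abs_le y
      push_cast
      nlinarith
    · have := le_abs_self y
      nlinarith

theorem loss_ge {h0 h1 : ℤ} (p0 : 0 < h0) (p1 : 0 < h1) :
    ((h1 : ℝ) - h0) ^ 2 / (4 * ((h0 : ℝ) + h1)) ≤ (loss h0 h1 : ℝ) := by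
  have hs : (0 : ℝ) < 4 * ((h0 : ℝ) + h1) := by
    have : (0 : ℤ) < 4 * (h0 + h1) := by positivity
    exact_mod_cast this
  rw [div_le_iff₀ hs]
  have h2 := Int.lt_ediv_add_one_mul_self ((h1 - h0) * (h1 - h0)) (b := 4 * (h0 + h1)) (by positivity)
  have h3 : (((h1 - h0) * (h1 - h0) : ℤ) : ℝ) ≤ ((loss h0 h1 * (4 * (h0 + h1)) : ℤ) : ℝ) := by
    exact_mod_cast h2.le
  push_cast at h3
  nlinarith [h3]

theorem yaff_mem {P : Par} {s : ℕ} {X0 X1 : ℤ} {Z : Iv} {τ y w : ℝ} (h0 : 0 ≤ τ) (h1 : τ ≤ 1)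
    (hb0 : 0 ≤ P.b0) (hb1 : 0 ≤ P.b1) (hw : Z.mem w) (hy : y ∈ Sg s)
    (h : y ^ 2 = af X0 X1 τ - af P.c0 P.c1 τ + af P.b0 P.b1 τ * w) :
    (yaff P s X0 X1 Z).mem τ y := by
  have hS := SC_pos
  have hb0' : (0 : ℝ) ≤ P.b0 := by exact_mod_cast hb0
  have hb1' : (0 : ℝ) ≤ P.b1 := by exact_mod_cast hb1
  have h1' : 0 ≤ 1 - τ := by linarith
  have hB : 0 ≤ (1 - τ) * (P.b0 : ℝ) + τ * P.b1 := add_nonneg (mul_nonneg h1' hb0') (mul_nonneg h0 hb1')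
  have hsq : (SC * |y|) ^ 2 = SC * ((1 - τ) * X0 + τ * X1) - SC * ((1 - τ) * P.c0 + τ * P.c1)
      + ((1 - τ) * P.b0 + τ * P.b1) * (SC * w) := by
    rw [mul_pow, sq_abs, h, ← SC_af X0 X1, ← SC_af P.c0 P.c1, ← SC_af P.b0 P.b1]
    ring
  have hlo : (1 - τ) * (qv X0 P.c0 P.b0 Z.lo : ℝ) + τ * (qv X1 P.c1 P.b1 Z.lo : ℝ) ≤ (SC * |y|) ^ 2 := by
    rw [hsq]
    have h2 := mul_le_mul_of_nonneg_left hw.1 hB
    unfold qv
    push_cast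
    nlinarith [h2]
  have hhi : (SC * |y|) ^ 2 ≤ (1 - τ) * (qv X0 P.c0 P.b0 Z.hi : ℝ) + τ * (qv X1 P.c1 P.b1 Z.hi : ℝ) := by
    rw [hsq]
    have h2 := mul_le_mul_of_nonneg_left hw.2 hB
    unfold qv
    push_cast
    nlinarith [h2]
  have hu : 0 ≤ SC * |y| := mul_nonneg hS.le (abs_nonneg y)
  refine yas_mem hy ?_ ?_
  · by_cases h2 : 0 ≤ qv X0 P.c0 P.b0 Z.lo ∧ 0 ≤ qv X1 P.c1 P.b1 Z.lo
    · rw [if_pos h2, if_pos h2]
      refine chord_lo h0 h1 hu (le_trans ?_ hlo)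
      have h3 : ∀ n : ℤ, 0 ≤ n → (rlo n : ℝ) ^ 2 ≤ n := by
        intro n hn
        have h4 : ((rlo n * rlo n : ℤ) : ℝ) ≤ ((max n 0 : ℤ) : ℝ) := by exact_mod_cast rlo_sq n
        rw [max_eq_left hn] at h4
        push_cast at h4
        nlinarith [h4]
      have h5 := mul_le_mul_of_nonneg_left (h3 _ h2.1) h1'
      have h6 := mul_le_mul_of_nonneg_left (h3 _ h2.2) h0
      linarith
    · rw [if_neg h2, if_neg h2]
      simpa using hu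
  · have h3 : ∀ n : ℤ, (n : ℝ) ≤ (rhi n : ℝ) ^ 2 := by
      intro n
      have h4 : (n : ℝ) ≤ ((rhi n * rhi n : ℤ) : ℝ) := by exact_mod_cast rhi_sq n
      push_cast at h4
      nlinarith [h4]
    have p0 := rhi_pos (qv X0 P.c0 P.b0 Z.hi)
    have p1 := rhi_pos (qv X1 P.c1 P.b1 Z.hi)
    have p0' : (0 : ℝ) < rhi (qv X0 P.c0 P.b0 Z.hi) := by exact_mod_cast p0
    have p1' : (0 : ℝ) < rhi (qv X1 P.c1 P.b1 Z.hi) := by exact_mod_cast p1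
    have h5 := mul_le_mul_of_nonneg_left (h3 (qv X0 P.c0 P.b0 Z.hi)) h1'
    have h6 := mul_le_mul_of_nonneg_left (h3 (qv X1 P.c1 P.b1 Z.hi)) h0
    have h7 := chord_hi (add_pos p0' p1') (le_trans hhi (add_le_add h5 h6))
    have h8 := loss_ge p0 p1
    push_cast
    linarith

/-- hull -/
def Ya.hull (Y : Ya) : Iv := ⟨min Y.l0 Y.l1, max Y.u0 Y.u1⟩

theorem Ya.hull_mem {Y : Ya} {τ y : ℝ} (h0 : 0 ≤ τ) (h1 : τ ≤ 1) (h : Y.mem τ y) :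
    Y.hull.mem y := by
  obtain ⟨h2, h3⟩ := h
  have h1' : 0 ≤ 1 - τ := by linarith
  constructor
  · refine le_trans ?_ h2
    have h4 : ((min Y.l0 Y.l1 : ℤ) : ℝ) ≤ Y.l0 := by exact_mod_cast min_le_left _ _
    have h5 : ((min Y.l0 Y.l1 : ℤ) : ℝ) ≤ Y.l1 := by exact_mod_cast min_le_right _ _
    have h6 := mul_le_mul_of_nonneg_left h4 h1'
    have h7 := mul_le_mul_of_nonneg_left h5 h0
    show ((min Y.l0 Y.l1 : ℤ) : ℝ) ≤ _
    linarith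
  · refine le_trans h3 ?_
    have h4 : (Y.u0 : ℝ) ≤ ((max Y.u0 Y.u1 : ℤ) : ℝ) := by exact_mod_cast le_max_left _ _
    have h5 : (Y.u1 : ℝ) ≤ ((max Y.u0 Y.u1 : ℤ) : ℝ) := by exact_mod_cast le_max_right _ _
    have h6 := mul_le_mul_of_nonneg_left h4 h1'
    have h7 := mul_le_mul_of_nonneg_left h5 h0
    show _ ≤ ((max Y.u0 Y.u1 : ℤ) : ℝ)
    linarith

/-- the enclosure of `D_2` after `k` rounds, together with that of `D_3` -/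
def zrec (P : Par) (s1 s2 s3 : ℕ) (X0 X1 : ℤ) : ℕ → Iv × Iv
  | 0 => (sgn s2 0 (2 * SC), sgn s3 0 (2 * SC))
  | k + 1 =>
    (dfrom P s2 (yaff P s1 X0 X1 (zrec P s1 s2 s3 X0 X1 k).1).hull (zrec P s1 s2 s3 X0 X1 k).2,
      dfrom P s3 (dfrom P s2 (yaff P s1 X0 X1 (zrec P s1 s2 s3 X0 X1 k).1).hull
        (zrec P s1 s2 s3 X0 X1 k).2) ⟨-2 * SC, 2 * SC⟩)

/-- the number of rounds -/
def nrd (P : Par) (X0 : ℤ) : ℕ :=
  if X0 - P.c0 < 309485009821345068724781056 then 2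
  else if X0 - 154170100190687659808167526400 < 309485009821345068724781056 ∧
    154170100190687659808167526400 - X0 < 309485009821345068724781056 then 5 else 1

theorem zrec_mem {P : Par} {s1 s2 s3 : ℕ} {X0 X1 : ℤ} {τ y z t v : ℝ} (h0 : 0 ≤ τ) (h1 : τ ≤ 1)
    (hb0 : 0 ≤ P.b0) (hb1 : 0 ≤ P.b1) (hy : y ∈ Sg s1) (hz : z ∈ Sg s2) (ht : t ∈ Sg s3)
    (hv : v ∈ Icc (-2 : ℝ) 2)
    (e1 : y ^ 2 = af X0 X1 τ - af P.c0 P.c1 τ + af P.b0 P.b1 τ * z)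
    (e2 : z ^ 2 = y - af P.c0 P.c1 τ + af P.b0 P.b1 τ * t)
    (e3 : t ^ 2 = z - af P.c0 P.c1 τ + af P.b0 P.b1 τ * v) (k : ℕ) :
    (zrec P s1 s2 s3 X0 X1 k).1.mem z ∧ (zrec P s1 s2 s3 X0 X1 k).2.mem t := by
  have hS := SC_pos
  have hb0' : (0 : ℝ) ≤ P.b0 := by exact_mod_cast hb0
  have hb1' : (0 : ℝ) ≤ P.b1 := by exact_mod_cast hb1
  have hb : 0 ≤ af P.b0 P.b1 τ := by
    unfold af
    have h1' : 0 ≤ 1 - τ := by linarith
    positivity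
  have hSg : ∀ (s : ℕ) (x : ℝ), x ∈ Sg s → |x| ≤ 2 := by
    intro s x hx
    simp only [Sg, mem_ofPred_eq] at hx
    rw [abs_le]
    split_ifs at hx <;> constructor <;> linarith [hx.1, hx.2]
  have base : ∀ (s : ℕ) (x : ℝ), x ∈ Sg s → (sgn s 0 (2 * SC)).mem x := by
    intro s x hx
    refine sgn_mem hx ?_ ?_
    · rw [Int.cast_zero]
      exact mul_nonneg hS.le (abs_nonneg x)
    · have := hSg s x hx
      push_cast
      nlinarith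
  induction k with
  | zero => exact ⟨base _ _ hz, base _ _ ht⟩
  | succ k ih =>
    have h2 : (dfrom P s2 (yaff P s1 X0 X1 (zrec P s1 s2 s3 X0 X1 k).1).hull
        (zrec P s1 s2 s3 X0 X1 k).2).mem z :=
      dfrom_mem h0 h1 hb (Ya.hull_mem h0 h1 (yaff_mem h0 h1 hb0 hb1 ih.1 hy e1)) ih.2 hz e2
    refine ⟨h2, dfrom_mem h0 h1 hb h2 ?_ ht e3⟩
    constructor
    · push_cast
      nlinarith [hv.1]
    · push_cast
      nlinarith [hv.2]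

/-! ## the closed formula for small `y` -/

theorem dfrom0_mem {P : Par} {A Z : Iv} {τ y u w : ℝ} (h0 : 0 ≤ τ) (h1 : τ ≤ 1)
    (hb : 0 ≤ af P.b0 P.b1 τ) (hu : A.mem u) (hw : Z.mem w) (hy : 0 ≤ y)
    (h : y ^ 2 = u - af P.c0 P.c1 τ + af P.b0 P.b1 τ * w) : (dfrom P 0 A Z).mem y := by
  have hS := SC_pos
  have hb1 := le_af (τ := τ) h0 h1 (min_le_left P.b0 P.b1) (min_le_right P.b0 P.b1)
  have hb2 := af_le (τ := τ) h0 h1 (le_max_left P.b0 P.b1) (le_max_right P.b0 P.b1)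
  have hc1 := le_af (τ := τ) h0 h1 (min_le_left P.c0 P.c1) (min_le_right P.c0 P.c1)
  have hc2 := af_le (τ := τ) h0 h1 (le_max_left P.c0 P.c1) (le_max_right P.c0 P.c1)
  have hsq : (SC * y) ^ 2 = SC * (SC * u) - SC * (SC * af P.c0 P.c1 τ)
      + SC ^ 2 * (af P.b0 P.b1 τ * w) := by
    rw [mul_pow, h]
    ring
  constructor
  · refine le_of_rlo (mul_nonneg hS.le hy) ?_
    rw [hsq]
    have h2 := mlo_le hb hb1 hb2 hw
    have h3 := mul_le_mul_of_nonneg_left hu.1 hS.le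
    have h4 := mul_le_mul_of_nonneg_left hc2 hS.le
    rw [Int.cast_add, Int.cast_mul, Int.cast_sub]
    linarith
  · refine le_rhi_of ?_
    rw [hsq]
    have h2 := le_mhi hb hb1 hb2 hw
    have h3 := mul_le_mul_of_nonneg_left hu.2 hS.le
    have h4 := mul_le_mul_of_nonneg_left hc1 hS.le
    rw [Int.cast_add, Int.cast_mul, Int.cast_sub]
    linarith

/-- bounds of `b / (|z| + |z0|)` -/
def klo (P : Par) (Za Z0 : Iv) : ℤ := min P.b0 P.b1 * SC / (Za.hi + Z0.hi)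

def khi (P : Par) (Za Z0 : Iv) : ℤ := max P.b0 P.b1 * SC / (Za.lo + Z0.lo) + 1

/-- the enclosure by the closed formula; `Za` encloses `|z|`, `Z0` encloses `√(-c + b t)` -/
def ynew (P : Par) (s1 s2 : ℕ) (X0 X1 : ℤ) (Za Z0 : Iv) : Ya :=
  if s1 = s2 then
    yas s1
      ((rlo (klo P Za Z0 * klo P Za Z0 + 4 * qv X0 P.c0 P.b0 (sgn s2 Z0.lo Z0.hi).lo) + klo P Za Z0) / 2)
      ((rlo (klo P Za Z0 * klo P Za Z0 + 4 * qv X1 P.c1 P.b1 (sgn s2 Z0.lo Z0.hi).lo) + klo P Za Z0) / 2)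
      ((rhi (khi P Za Z0 * khi P Za Z0 + 4 * qv X0 P.c0 P.b0 (sgn s2 Z0.lo Z0.hi).hi) +
        loss (rhi (khi P Za Z0 * khi P Za Z0 + 4 * qv X0 P.c0 P.b0 (sgn s2 Z0.lo Z0.hi).hi))
          (rhi (khi P Za Z0 * khi P Za Z0 + 4 * qv X1 P.c1 P.b1 (sgn s2 Z0.lo Z0.hi).hi)) +
        khi P Za Z0) / 2 + 1)
      ((rhi (khi P Za Z0 * khi P Za Z0 + 4 * qv X1 P.c1 P.b1 (sgn s2 Z0.lo Z0.hi).hi) +
        loss (rhi (khi P Za Z0 * khi P Za Z0 + 4 * qv X0 P.c0 P.b0 (sgn s2 Z0.lo Z0.hi).hi))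
          (rhi (khi P Za Z0 * khi P Za Z0 + 4 * qv X1 P.c1 P.b1 (sgn s2 Z0.lo Z0.hi).hi)) +
        khi P Za Z0) / 2 + 1)
  else
    yas s1
      ((rlo (klo P Za Z0 * klo P Za Z0 + 4 * qv X0 P.c0 P.b0 (sgn s2 Z0.lo Z0.hi).lo) - khi P Za Z0) / 2)
      ((rlo (klo P Za Z0 * klo P Za Z0 + 4 * qv X1 P.c1 P.b1 (sgn s2 Z0.lo Z0.hi).lo) - khi P Za Z0) / 2)
      ((rhi (khi P Za Z0 * khi P Za Z0 + 4 * qv X0 P.c0 P.b0 (sgn s2 Z0.lo Z0.hi).hi) +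
        loss (rhi (khi P Za Z0 * khi P Za Z0 + 4 * qv X0 P.c0 P.b0 (sgn s2 Z0.lo Z0.hi).hi))
          (rhi (khi P Za Z0 * khi P Za Z0 + 4 * qv X1 P.c1 P.b1 (sgn s2 Z0.lo Z0.hi).hi)) -
        klo P Za Z0) / 2 + 1)
      ((rhi (khi P Za Z0 * khi P Za Z0 + 4 * qv X1 P.c1 P.b1 (sgn s2 Z0.lo Z0.hi).hi) +
        loss (rhi (khi P Za Z0 * khi P Za Z0 + 4 * qv X0 P.c0 P.b0 (sgn s2 Z0.lo Z0.hi).hi))
          (rhi (khi P Za Z0 * khi P Za Z0 + 4 * qv X1 P.c1 P.b1 (sgn s2 Z0.lo Z0.hi).hi)) -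
        klo P Za Z0) / 2 + 1)

/-- the condition for the closed formula -/
def ycond (P : Par) (s1 s2 : ℕ) (X0 X1 : ℤ) (Za Z0 : Iv) : Prop :=
  s1 < 2 ∧ s2 < 2 ∧ 0 < Z0.lo ∧ 0 ≤ Za.lo ∧ 0 < qv X0 P.c0 P.b0 (sgn s2 Z0.lo Z0.hi).lo ∧
    0 < qv X1 P.c1 P.b1 (sgn s2 Z0.lo Z0.hi).lo

instance (P : Par) (s1 s2 : ℕ) (X0 X1 : ℤ) (Za Z0 : Iv) : Decidable (ycond P s1 s2 X0 X1 Za Z0) := by
  unfold ycond
  infer_instance

theorem half_lo (m : ℤ) : (((m / 2 : ℤ)) : ℝ) ≤ (m : ℝ) / 2 := by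
  have h2 : (m / 2) * 2 ≤ m := Int.ediv_mul_le m (by norm_num)
  have h3 : (((m / 2) * 2 : ℤ) : ℝ) ≤ (m : ℝ) := by exact_mod_cast h2
  push_cast at h3
  linarith

theorem half_hi (m : ℤ) : (m : ℝ) / 2 ≤ ((m / 2 + 1 : ℤ) : ℝ) := by
  have h2 := Int.lt_ediv_add_one_mul_self m (b := 2) (by norm_num)
  have h3 : (m : ℝ) ≤ (((m / 2 + 1) * 2 : ℤ) : ℝ) := by exact_mod_cast h2.le
  push_cast at h3 ⊢
  linarith

/-- the two affine bounds of a square root -/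
theorem root_aff {q0 q1 r0 r1 : ℤ} {τ u : ℝ} (h0 : 0 ≤ τ) (h1 : τ ≤ 1) (hu : 0 ≤ u)
    (p0 : 0 ≤ q0) (p1 : 0 ≤ q1) (hlo : (1 - τ) * (q0 : ℝ) + τ * q1 ≤ u ^ 2)
    (hhi : u ^ 2 ≤ (1 - τ) * (r0 : ℝ) + τ * r1) :
    (1 - τ) * (rlo q0 : ℝ) + τ * (rlo q1 : ℝ) ≤ u ∧
      u ≤ (1 - τ) * (rhi r0 : ℝ) + τ * (rhi r1 : ℝ) + (loss (rhi r0) (rhi r1) : ℝ) := by
  have h1' : 0 ≤ 1 - τ := by linarith
  constructor
  · refine chord_lo h0 h1 hu (le_trans ?_ hlo)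
    have h3 : ∀ n : ℤ, 0 ≤ n → (rlo n : ℝ) ^ 2 ≤ n := by
      intro n hn
      have h4 : ((rlo n * rlo n : ℤ) : ℝ) ≤ ((max n 0 : ℤ) : ℝ) := by exact_mod_cast rlo_sq n
      rw [max_eq_left hn] at h4
      push_cast at h4
      nlinarith [h4]
    have h5 := mul_le_mul_of_nonneg_left (h3 _ p0) h1'
    have h6 := mul_le_mul_of_nonneg_left (h3 _ p1) h0
    linarith
  · have h3 : ∀ n : ℤ, (n : ℝ) ≤ (rhi n : ℝ) ^ 2 := by
      intro n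
      have h4 : (n : ℝ) ≤ ((rhi n * rhi n : ℤ) : ℝ) := by exact_mod_cast rhi_sq n
      push_cast at h4
      nlinarith [h4]
    have p0' : (0 : ℝ) < rhi r0 := by exact_mod_cast rhi_pos r0
    have p1' : (0 : ℝ) < rhi r1 := by exact_mod_cast rhi_pos r1
    have h5 := mul_le_mul_of_nonneg_left (h3 r0) h1'
    have h6 := mul_le_mul_of_nonneg_left (h3 r1) h0
    have h7 := chord_hi (add_pos p0' p1') (le_trans hhi (add_le_add h5 h6))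
    have h8 := loss_ge (rhi_pos r0) (rhi_pos r1)
    linarith

theorem ynew_mem {P : Par} {s1 s2 : ℕ} {X0 X1 : ℤ} {Za Z0 : Iv} {τ y z t v0 : ℝ} (h0 : 0 ≤ τ)
    (h1 : τ ≤ 1) (hb0 : 0 ≤ P.b0) (hb1 : 0 ≤ P.b1) (hy : y ∈ Sg s1) (hz : z ∈ Sg s2)
    (hZa : Za.mem |z|) (hZ0 : Z0.mem v0) (hv0 : 0 ≤ v0)
    (e0 : v0 ^ 2 = 0 - af P.c0 P.c1 τ + af P.b0 P.b1 τ * t)
    (e1 : y ^ 2 = af X0 X1 τ - af P.c0 P.c1 τ + af P.b0 P.b1 τ * z)
    (e2 : z ^ 2 = y - af P.c0 P.c1 τ + af P.b0 P.b1 τ * t) (hc : ycond P s1 s2 X0 X1 Za Z0) :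
    (ynew P s1 s2 X0 X1 Za Z0).mem τ y := by
  have hS := SC_pos
  obtain ⟨k1, k2, k3, k4, k5, k6⟩ := hc
  have hb0' : (0 : ℝ) ≤ P.b0 := by exact_mod_cast hb0
  have hb1' : (0 : ℝ) ≤ P.b1 := by exact_mod_cast hb1
  have h1' : 0 ≤ 1 - τ := by linarith
  have hb : 0 ≤ af P.b0 P.b1 τ := by
    unfold af
    positivity
  obtain ⟨b, hbd⟩ : ∃ b : ℝ, b = af P.b0 P.b1 τ := ⟨_, rfl⟩
  obtain ⟨c, hcd⟩ : ∃ c : ℝ, c = af P.c0 P.c1 τ := ⟨_, rfl⟩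
  obtain ⟨x, hxd⟩ : ∃ x : ℝ, x = af X0 X1 τ := ⟨_, rfl⟩
  have hbm := le_af (τ := τ) h0 h1 (min_le_left P.b0 P.b1) (min_le_right P.b0 P.b1)
  have hbM := af_le (τ := τ) h0 h1 (le_max_left P.b0 P.b1) (le_max_right P.b0 P.b1)
  have hmin0 : (0 : ℝ) ≤ ((min P.b0 P.b1 : ℤ) : ℝ) := by exact_mod_cast le_min hb0 hb1
  have hSb := SC_af P.b0 P.b1 τ
  have hSc := SC_af P.c0 P.c1 τ
  have hSx := SC_af X0 X1 τ
  rw [← hbd] at hb e0 e1 e2 hbm hbM hSb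
  rw [← hcd] at e0 e1 e2 hSc
  rw [← hxd] at e1 hSx
  -- `v = |z|`
  obtain ⟨v, hv⟩ : ∃ v : ℝ, v = |z| := ⟨_, rfl⟩
  rw [← hv] at hZa
  have hvn : 0 ≤ v := by rw [hv]; exact abs_nonneg z
  have hv2 : v ^ 2 = y - c + b * t := by rw [hv, sq_abs, e2]
  have hv0p : 0 < v0 := by
    have h2 : (0 : ℝ) < (Z0.lo : ℝ) := by exact_mod_cast k3
    have h3 := hZ0.1
    have h4 : 0 < SC * v0 := lt_of_lt_of_le h2 h3
    exact (mul_pos_iff_of_pos_left hS).1 h4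
  have hs : 0 < v + v0 := by linarith
  have hdiff : (v - v0) * (v + v0) = y := by nlinarith
  -- `κ`
  obtain ⟨κ, hκ⟩ : ∃ κ : ℝ, κ = b / (v + v0) := ⟨_, rfl⟩
  have hκ0 : 0 ≤ κ := by rw [hκ]; exact div_nonneg hb hs.le
  have hκs : κ * (v + v0) = b := by rw [hκ]; field_simp
  have hκy : b * (v - v0) = κ * y := by
    rw [← hdiff, ← hκs]
    ring
  -- signs
  obtain ⟨ε1, he1, hy1, hy1'⟩ : ∃ ε : ℝ, (ε = 1 ∨ ε = -1) ∧ y = ε * |y| ∧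
      ((s1 = 0 ∧ ε = 1) ∨ (s1 = 1 ∧ ε = -1)) := by
    simp only [Sg, mem_ofPred_eq] at hy
    rcases Nat.lt_or_ge s1 1 with h2 | h2
    · have h3 : s1 = 0 := by omega
      rw [if_pos h3] at hy
      exact ⟨1, Or.inl rfl, by rw [abs_of_nonneg hy.1]; ring, Or.inl ⟨h3, rfl⟩⟩
    · have h3 : s1 = 1 := by omega
      rw [if_neg (by omega), if_pos h3] at hy
      exact ⟨-1, Or.inr rfl, by rw [abs_of_nonpos hy.2]; ring, Or.inr ⟨h3, rfl⟩⟩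
  obtain ⟨ε2, he2, hz1, hz1'⟩ : ∃ ε : ℝ, (ε = 1 ∨ ε = -1) ∧ z = ε * v ∧
      ((s2 = 0 ∧ ε = 1) ∨ (s2 = 1 ∧ ε = -1)) := by
    simp only [Sg, mem_ofPred_eq] at hz
    rcases Nat.lt_or_ge s2 1 with h2 | h2
    · have h3 : s2 = 0 := by omega
      rw [if_pos h3] at hz
      exact ⟨1, Or.inl rfl, by rw [hv, abs_of_nonneg hz.1]; ring, Or.inl ⟨h3, rfl⟩⟩
    · have h3 : s2 = 1 := by omega
      rw [if_neg (by omega), if_pos h3] at hz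
      exact ⟨-1, Or.inr rfl, by rw [hv, abs_of_nonpos hz.2]; ring, Or.inr ⟨h3, rfl⟩⟩
  obtain ⟨u, hu⟩ : ∃ u : ℝ, u = |y| := ⟨_, rfl⟩
  have hun : 0 ≤ u := by rw [hu]; exact abs_nonneg y
  have hu2 : u ^ 2 = y ^ 2 := by rw [hu, sq_abs]
  rw [← hu] at hy1
  obtain ⟨q, hq⟩ : ∃ q : ℝ, q = x - c + b * (ε2 * v0) := ⟨_, rfl⟩
  have hquad : u ^ 2 = q + ε1 * ε2 * κ * u := by
    have h2 : b * z = b * (ε2 * v0) + ε2 * (κ * y) := by
      rw [← hκy, hz1]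
      ring
    rw [hu2, e1, h2, hq, hy1]
    ring
  -- the interval of `q`
  have hZs : (sgn s2 Z0.lo Z0.hi).mem (ε2 * v0) := by
    have h2 := hZ0.1
    have h3 := hZ0.2
    unfold sgn
    rcases hz1' with ⟨h4, h5⟩ | ⟨h4, h5⟩
    · rw [if_pos h4, h5, one_mul]
      exact hZ0
    · rw [if_neg (by omega), if_pos h4, h5]
      constructor
      · push_cast
        linarith
      · push_cast
        linarith
  have hB : 0 ≤ (1 - τ) * (P.b0 : ℝ) + τ * P.b1 := add_nonneg (mul_nonneg h1' hb0') (mul_nonneg h0 hb1')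
  have hqS : SC ^ 2 * q = SC * ((1 - τ) * X0 + τ * X1) - SC * ((1 - τ) * P.c0 + τ * P.c1)
      + ((1 - τ) * P.b0 + τ * P.b1) * (SC * (ε2 * v0)) := by
    rw [← hSx, ← hSc, ← hSb, hq]
    ring
  obtain ⟨Q0, hQ0⟩ : ∃ Q0 : ℤ, Q0 = qv X0 P.c0 P.b0 (sgn s2 Z0.lo Z0.hi).lo := ⟨_, rfl⟩
  obtain ⟨Q1, hQ1⟩ : ∃ Q1 : ℤ, Q1 = qv X1 P.c1 P.b1 (sgn s2 Z0.lo Z0.hi).lo := ⟨_, rfl⟩
  obtain ⟨R0, hR0⟩ : ∃ R0 : ℤ, R0 = qv X0 P.c0 P.b0 (sgn s2 Z0.lo Z0.hi).hi := ⟨_, rfl⟩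
  obtain ⟨R1, hR1⟩ : ∃ R1 : ℤ, R1 = qv X1 P.c1 P.b1 (sgn s2 Z0.lo Z0.hi).hi := ⟨_, rfl⟩
  have hqlo : (1 - τ) * (Q0 : ℝ) + τ * (Q1 : ℝ) ≤ SC ^ 2 * q := by
    rw [hqS, hQ0, hQ1]
    have h2 := mul_le_mul_of_nonneg_left hZs.1 hB
    unfold qv
    push_cast
    nlinarith [h2]
  have hqhi : SC ^ 2 * q ≤ (1 - τ) * (R0 : ℝ) + τ * (R1 : ℝ) := by
    rw [hqS, hR0, hR1]
    have h2 := mul_le_mul_of_nonneg_left hZs.2 hB
    unfold qv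
    push_cast
    nlinarith [h2]
  rw [← hQ0] at k5
  rw [← hQ1] at k6
  have hqpos : 0 < q := by
    have h2 : (0 : ℝ) < Q0 := by exact_mod_cast k5
    have h3 : (0 : ℝ) < Q1 := by exact_mod_cast k6
    have h4 : 0 < (1 - τ) * (Q0 : ℝ) + τ * (Q1 : ℝ) := by
      rcases h0.eq_or_lt with h5 | h5
      · rw [← h5]
        simpa using h2
      · have h6 := mul_pos h5 h3
        have h7 := mul_nonneg h1' h2.le
        linarith
    have h5 : 0 < SC ^ 2 * q := lt_of_lt_of_le h4 hqlo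
    exact (mul_pos_iff_of_pos_left (by positivity)).1 h5
  -- the interval of `κ`
  have hκlo : (klo P Za Z0 : ℝ) ≤ SC * κ := by
    have h2 : (0 : ℝ) < (Za.hi : ℝ) + Z0.hi := by
      have h3 := hZa.2
      have h4 := hZ0.2
      have h5 := mul_pos hS hs
      nlinarith
    have h2' : 0 < Za.hi + Z0.hi := by exact_mod_cast h2
    have h3 : klo P Za Z0 * (Za.hi + Z0.hi) ≤ min P.b0 P.b1 * SC :=
      Int.ediv_mul_le _ h2'.ne'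
    have h4 : (klo P Za Z0 : ℝ) * ((Za.hi : ℝ) + Z0.hi) ≤ ((min P.b0 P.b1 : ℤ) : ℝ) * SC := by
      exact_mod_cast h3
    have h5 : SC * κ * ((Za.hi : ℝ) + Z0.hi) ≥ SC * κ * (SC * (v + v0)) := by
      refine mul_le_mul_of_nonneg_left ?_ (mul_nonneg hS.le hκ0)
      have := hZa.2
      have := hZ0.2
      linarith
    have h6 : SC * κ * (SC * (v + v0)) = SC * (SC * b) := by
      rw [← hκs]
      ring
    have h7 : ((min P.b0 P.b1 : ℤ) : ℝ) * SC ≤ SC * (SC * b) := by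
      rw [mul_comm]
      exact mul_le_mul_of_nonneg_left hbm hS.le
    have h8 : (klo P Za Z0 : ℝ) * ((Za.hi : ℝ) + Z0.hi) ≤ SC * κ * ((Za.hi : ℝ) + Z0.hi) := by
      linarith
    exact le_of_mul_le_mul_right h8 h2
  have hκhi : SC * κ ≤ (khi P Za Z0 : ℝ) := by
    have h2' : 0 < Za.lo + Z0.lo := by omega
    have h2 : (0 : ℝ) < (Za.lo : ℝ) + Z0.lo := by exact_mod_cast h2'
    have h3 := Int.lt_ediv_add_one_mul_self (max P.b0 P.b1 * SC) (b := Za.lo + Z0.lo) h2'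
    have h4 : ((max P.b0 P.b1 : ℤ) : ℝ) * SC ≤ (khi P Za Z0 : ℝ) * ((Za.lo : ℝ) + Z0.lo) := by
      have h5 : max P.b0 P.b1 * SC ≤ khi P Za Z0 * (Za.lo + Z0.lo) := h3.le
      exact_mod_cast h5
    have h5 : SC * κ * ((Za.lo : ℝ) + Z0.lo) ≤ SC * κ * (SC * (v + v0)) := by
      refine mul_le_mul_of_nonneg_left ?_ (mul_nonneg hS.le hκ0)
      have := hZa.1
      have := hZ0.1
      linarith
    have h6 : SC * κ * (SC * (v + v0)) = SC * (SC * b) := by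
      rw [← hκs]
      ring
    have h7 : SC * (SC * b) ≤ ((max P.b0 P.b1 : ℤ) : ℝ) * SC := by
      rw [mul_comm ((max P.b0 P.b1 : ℤ) : ℝ)]
      exact mul_le_mul_of_nonneg_left hbM hS.le
    have h8 : SC * κ * ((Za.lo : ℝ) + Z0.lo) ≤ (khi P Za Z0 : ℝ) * ((Za.lo : ℝ) + Z0.lo) := by
      linarith
    exact le_of_mul_le_mul_right h8 h2
  have hklo0 : (0 : ℝ) ≤ (klo P Za Z0 : ℝ) := by
    have h2 : 0 ≤ klo P Za Z0 := by
      unfold klo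
      refine Int.ediv_nonneg ?_ ?_
      · have : 0 ≤ SC := by decide
        exact mul_nonneg (le_min hb0 hb1) this
      · have h3 := hZa.2
        have h4 := hZ0.2
        have h5 := mul_pos hS hs
        have h6 : (0 : ℝ) ≤ (Za.hi : ℝ) + Z0.hi := by nlinarith
        exact_mod_cast h6
    exact_mod_cast h2
  -- the root
  have hσ : (ε1 * ε2 = 1 ∧ s1 = s2) ∨ (ε1 * ε2 = -1 ∧ s1 ≠ s2) := by
    rcases hy1' with ⟨h2, h3⟩ | ⟨h2, h3⟩ <;> rcases hz1' with ⟨h4, h5⟩ | ⟨h4, h5⟩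
    · exact Or.inl ⟨by rw [h3, h5]; norm_num, by omega⟩
    · exact Or.inr ⟨by rw [h3, h5]; norm_num, by omega⟩
    · exact Or.inr ⟨by rw [h3, h5]; norm_num, by omega⟩
    · exact Or.inl ⟨by rw [h3, h5]; norm_num, by omega⟩
  have hSκ0 : 0 ≤ SC * κ := mul_nonneg hS.le hκ0
  have hsq1 : (klo P Za Z0 : ℝ) ^ 2 ≤ (SC * κ) ^ 2 := pow_le_pow_left₀ hklo0 hκlo 2
  have hsq2 : (SC * κ) ^ 2 ≤ (khi P Za Z0 : ℝ) ^ 2 := pow_le_pow_left₀ hSκ0 hκhi 2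
  have bounds : ∀ m : ℝ, 0 ≤ m → (SC * m) ^ 2 = (SC * κ) ^ 2 + 4 * (SC ^ 2 * q) →
      (1 - τ) * (rlo (klo P Za Z0 * klo P Za Z0 + 4 * Q0) : ℝ)
        + τ * (rlo (klo P Za Z0 * klo P Za Z0 + 4 * Q1) : ℝ) ≤ SC * m ∧
      SC * m ≤ (1 - τ) * (rhi (khi P Za Z0 * khi P Za Z0 + 4 * R0) : ℝ)
        + τ * (rhi (khi P Za Z0 * khi P Za Z0 + 4 * R1) : ℝ)
        + (loss (rhi (khi P Za Z0 * khi P Za Z0 + 4 * R0))
            (rhi (khi P Za Z0 * khi P Za Z0 + 4 * R1)) : ℝ) := by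
    intro m hm hm2
    refine root_aff h0 h1 (mul_nonneg hS.le hm) ?_ ?_ ?_ ?_
    · nlinarith [mul_self_nonneg (klo P Za Z0)]
    · nlinarith [mul_self_nonneg (klo P Za Z0)]
    · rw [hm2]
      push_cast
      nlinarith [hqlo, hsq1]
    · rw [hm2]
      push_cast
      nlinarith [hqhi, hsq2]
  unfold ynew
  rw [← hQ0, ← hQ1, ← hR0, ← hR1]
  rcases hσ with ⟨hσ1, hs12⟩ | ⟨hσ1, hs12⟩
  · rw [if_pos hs12]
    rw [hσ1, one_mul] at hquad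
    have hm : 0 ≤ 2 * u - κ := by
      have h2 : 0 < u * (u - κ) := by nlinarith
      have h3 : 0 < u := by
        rcases hun.eq_or_lt with h4 | h4
        · rw [← h4] at h2
          simp at h2
        · exact h4
      have h4 : 0 < u - κ := (mul_pos_iff_of_pos_left h3).1 h2
      linarith
    have hm2 : (SC * (2 * u - κ)) ^ 2 = (SC * κ) ^ 2 + 4 * (SC ^ 2 * q) := by
      have h2 : q = u ^ 2 - κ * u := by linarith
      rw [h2]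
      ring
    obtain ⟨b1, b2⟩ := bounds _ hm hm2
    refine yas_mem hy ?_ ?_
    · rw [← hu]
      have h2 := mul_le_mul_of_nonneg_left (half_lo (rlo (klo P Za Z0 * klo P Za Z0 + 4 * Q0) + klo P Za Z0)) h1'
      have h3 := mul_le_mul_of_nonneg_left (half_lo (rlo (klo P Za Z0 * klo P Za Z0 + 4 * Q1) + klo P Za Z0)) h0
      push_cast at h2 h3
      linarith
    · rw [← hu]
      have h2 := mul_le_mul_of_nonneg_left (half_hi (rhi (khi P Za Z0 * khi P Za Z0 + 4 * R0) +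
        loss (rhi (khi P Za Z0 * khi P Za Z0 + 4 * R0)) (rhi (khi P Za Z0 * khi P Za Z0 + 4 * R1)) +
        khi P Za Z0)) h1'
      have h3 := mul_le_mul_of_nonneg_left (half_hi (rhi (khi P Za Z0 * khi P Za Z0 + 4 * R1) +
        loss (rhi (khi P Za Z0 * khi P Za Z0 + 4 * R0)) (rhi (khi P Za Z0 * khi P Za Z0 + 4 * R1)) +
        khi P Za Z0)) h0
      rw [Int.cast_add, Int.cast_add] at h2 h3
      linarith
  · rw [if_neg hs12]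
    rw [hσ1] at hquad
    have hm : 0 ≤ 2 * u + κ := by linarith
    have hm2 : (SC * (2 * u + κ)) ^ 2 = (SC * κ) ^ 2 + 4 * (SC ^ 2 * q) := by
      have h2 : q = u ^ 2 + κ * u := by linarith
      rw [h2]
      ring
    obtain ⟨b1, b2⟩ := bounds _ hm hm2
    refine yas_mem hy ?_ ?_
    · rw [← hu]
      have h2 := mul_le_mul_of_nonneg_left (half_lo (rlo (klo P Za Z0 * klo P Za Z0 + 4 * Q0) - khi P Za Z0)) h1'
      have h3 := mul_le_mul_of_nonneg_left (half_lo (rlo (klo P Za Z0 * klo P Za Z0 + 4 * Q1) - khi P Za Z0)) h0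
      push_cast at h2 h3
      linarith
    · rw [← hu]
      have h2 := mul_le_mul_of_nonneg_left (half_hi (rhi (khi P Za Z0 * khi P Za Z0 + 4 * R0) +
        loss (rhi (khi P Za Z0 * khi P Za Z0 + 4 * R0)) (rhi (khi P Za Z0 * khi P Za Z0 + 4 * R1)) -
        klo P Za Z0)) h1'
      have h3 := mul_le_mul_of_nonneg_left (half_hi (rhi (khi P Za Z0 * khi P Za Z0 + 4 * R1) +
        loss (rhi (khi P Za Z0 * khi P Za Z0 + 4 * R0)) (rhi (khi P Za Z0 * khi P Za Z0 + 4 * R1)) -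
        klo P Za Z0)) h0
      rw [Int.cast_sub, Int.cast_add] at h2 h3
      linarith

/-- the coarse enclosures of `y` (hull), `|z|`, `√(-c + b t)` -/
def yco (P : Par) (s1 s2 s3 : ℕ) (X0 X1 : ℤ) : Iv :=
  (yaff P s1 X0 X1 (zrec P s1 s2 s3 X0 X1 (nrd P X0)).1).hull
def zab (P : Par) (s1 s2 s3 : ℕ) (X0 X1 : ℤ) : Iv :=
  dfrom P 0 (yco P s1 s2 s3 X0 X1) (zrec P s1 s2 s3 X0 X1 (nrd P X0)).2
def zze (P : Par) (s1 s2 s3 : ℕ) (X0 X1 : ℤ) : Iv :=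
  dfrom P 0 ⟨0, 0⟩ (zrec P s1 s2 s3 X0 X1 (nrd P X0)).2

/-- the affine enclosure of `y` over the level `x(τ)` in the strip of type `s1, s2, s3` -/
def yenc (P : Par) (s1 s2 s3 : ℕ) (X0 X1 : ℤ) : Ya :=
  if X0 - P.c0 < 309485009821345068724781056 ∧
      ycond P s1 s2 X0 X1 (zab P s1 s2 s3 X0 X1) (zze P s1 s2 s3 X0 X1) then
    ynew P s1 s2 X0 X1 (zab P s1 s2 s3 X0 X1) (zze P s1 s2 s3 X0 X1)
  else yaff P s1 X0 X1 (zrec P s1 s2 s3 X0 X1 (nrd P X0)).1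

theorem yenc_mem {P : Par} {s1 s2 s3 : ℕ} {X0 X1 : ℤ} {τ y z t v : ℝ} (h0 : 0 ≤ τ) (h1 : τ ≤ 1)
    (hb0 : 0 ≤ P.b0) (hb1 : 0 ≤ P.b1) (hy : y ∈ Sg s1) (hz : z ∈ Sg s2) (ht : t ∈ Sg s3)
    (hv : v ∈ Icc (-2 : ℝ) 2)
    (e1 : y ^ 2 = af X0 X1 τ - af P.c0 P.c1 τ + af P.b0 P.b1 τ * z)
    (e2 : z ^ 2 = y - af P.c0 P.c1 τ + af P.b0 P.b1 τ * t)
    (e3 : t ^ 2 = z - af P.c0 P.c1 τ + af P.b0 P.b1 τ * v) :
    (yenc P s1 s2 s3 X0 X1).mem τ y := by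
  have hz' := zrec_mem (X0 := X0) (X1 := X1) h0 h1 hb0 hb1 hy hz ht hv e1 e2 e3 (nrd P X0)
  have hold := yaff_mem h0 h1 hb0 hb1 hz'.1 hy e1
  unfold yenc
  split_ifs with hc
  · have hS := SC_pos
    have hb0' : (0 : ℝ) ≤ P.b0 := by exact_mod_cast hb0
    have hb1' : (0 : ℝ) ≤ P.b1 := by exact_mod_cast hb1
    have h1' : 0 ≤ 1 - τ := by linarith
    have hb : 0 ≤ af P.b0 P.b1 τ := by
      unfold af
      positivity
    have hzab : (zab P s1 s2 s3 X0 X1).mem |z| := by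
      refine dfrom0_mem h0 h1 hb (Ya.hull_mem h0 h1 hold) hz'.2 (abs_nonneg z) ?_
      rw [sq_abs]
      exact e2
    -- `-c + b t > 0`
    have hpos : 0 < (zze P s1 s2 s3 X0 X1).lo := hc.2.2.2.1
    have hbm := le_af (τ := τ) h0 h1 (min_le_left P.b0 P.b1) (min_le_right P.b0 P.b1)
    have hbM := af_le (τ := τ) h0 h1 (le_max_left P.b0 P.b1) (le_max_right P.b0 P.b1)
    have hcM := af_le (τ := τ) h0 h1 (le_max_left P.c0 P.c1) (le_max_right P.c0 P.c1)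
    have hn : 0 < (0 - max P.c0 P.c1) * SC +
        mlo (min P.b0 P.b1) (max P.b0 P.b1) (zrec P s1 s2 s3 X0 X1 (nrd P X0)).2 := by
      by_contra hcon
      push Not at hcon
      have h2 := rlo_sq ((0 - max P.c0 P.c1) * SC +
        mlo (min P.b0 P.b1) (max P.b0 P.b1) (zrec P s1 s2 s3 X0 X1 (nrd P X0)).2)
      rw [max_eq_right hcon] at h2
      have h3 : 0 < rlo ((0 - max P.c0 P.c1) * SC +
        mlo (min P.b0 P.b1) (max P.b0 P.b1) (zrec P s1 s2 s3 X0 X1 (nrd P X0)).2) := hpos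
      nlinarith
    have hr : 0 ≤ 0 - af P.c0 P.c1 τ + af P.b0 P.b1 τ * t := by
      have h2 := mlo_le hb hbm hbM hz'.2
      have h3 : ((0 : ℤ) : ℝ) < (((0 - max P.c0 P.c1) * SC +
        mlo (min P.b0 P.b1) (max P.b0 P.b1) (zrec P s1 s2 s3 X0 X1 (nrd P X0)).2 : ℤ) : ℝ) := by
        exact_mod_cast hn
      rw [Int.cast_add, Int.cast_mul, Int.cast_sub] at h3
      have h4 := mul_le_mul_of_nonneg_left hcM hS.le
      have h5 : 0 ≤ SC ^ 2 * (0 - af P.c0 P.c1 τ + af P.b0 P.b1 τ * t) := by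
        simp only [Int.cast_zero] at h3
        nlinarith
      exact nonneg_of_mul_nonneg_right (by linarith : 0 ≤ SC ^ 2 * (0 - af P.c0 P.c1 τ + af P.b0 P.b1 τ * t)) (by positivity)
    obtain ⟨v0, hv0, hv0sq⟩ : ∃ v0 : ℝ, 0 ≤ v0 ∧
        v0 ^ 2 = 0 - af P.c0 P.c1 τ + af P.b0 P.b1 τ * t :=
      ⟨Real.sqrt _, Real.sqrt_nonneg _, Real.sq_sqrt hr⟩
    have hzero : (⟨0, 0⟩ : Iv).mem (0 : ℝ) := by
      constructor <;> simp
    have hzze : (zze P s1 s2 s3 X0 X1).mem v0 :=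
      dfrom0_mem h0 h1 hb hzero hz'.2 hv0 hv0sq
    exact ynew_mem h0 h1 hb0 hb1 hy hz hzab hzze hv0 hv0sq e1 e2 hc.2
  · exact hold

/-- quarter of a product, rounded up -/
def qr (a b : ℤ) : ℤ := |a * b| / 4 + 1

theorem qr_ge (a b : ℤ) (τ : ℝ) (h0 : 0 ≤ τ) (h1 : τ ≤ 1) :
    τ * (1 - τ) * |(a : ℝ) * b| ≤ (qr a b : ℝ) := by
  have h2 := Int.lt_ediv_add_one_mul_self (|a * b|) (b := 4) (by norm_num)
  have h3 : ((|a * b| : ℤ) : ℝ) ≤ ((qr a b * 4 : ℤ) : ℝ) := by exact_mod_cast h2.le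
  push_cast at h3
  have h4 : τ * (1 - τ) ≤ 1 / 4 := by nlinarith [sq_nonneg (2 * τ - 1)]
  have h5 : 0 ≤ |(a : ℝ) * b| := abs_nonneg _
  have h6 := mul_le_mul_of_nonneg_right h4 h5
  linarith

/-- upper bounds of `x² + c - b y` at the two ends (scale `SC²`) -/
def FU (P : Par) (Y : Ya) (X C B Yl : ℤ) : ℤ :=
  X * X + C * SC - B * Yl + qr (P.b1 - P.b0) (Y.l1 - Y.l0)

/-- lower bounds of `x² + c - b y` at the two ends (scale `SC²`) -/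
def FL (P : Par) (Y : Ya) (D X C B Yu : ℤ) : ℤ :=
  X * X + C * SC - B * Yu - qr (P.b1 - P.b0) (Y.u1 - Y.u0) - qr D D

theorem FU_ge {P : Par} {Y : Ya} {X0 X1 : ℤ} {τ y : ℝ} (h0 : 0 ≤ τ) (h1 : τ ≤ 1)
    (hb0 : 0 ≤ P.b0) (hb1 : 0 ≤ P.b1) (hy : Y.mem τ y) :
    SC ^ 2 * (af X0 X1 τ ^ 2 - af P.b0 P.b1 τ * y + af P.c0 P.c1 τ) ≤
      (1 - τ) * (FU P Y X0 P.c0 P.b0 Y.l0 : ℝ) + τ * (FU P Y X1 P.c1 P.b1 Y.l1 : ℝ) := by
  have hb0' : (0 : ℝ) ≤ P.b0 := by exact_mod_cast hb0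
  have hb1' : (0 : ℝ) ≤ P.b1 := by exact_mod_cast hb1
  have h1' : 0 ≤ 1 - τ := by linarith
  have hB : 0 ≤ (1 - τ) * (P.b0 : ℝ) + τ * P.b1 := add_nonneg (mul_nonneg h1' hb0') (mul_nonneg h0 hb1')
  have e : SC ^ 2 * (af X0 X1 τ ^ 2 - af P.b0 P.b1 τ * y + af P.c0 P.c1 τ) =
      ((1 - τ) * X0 + τ * X1) ^ 2 - ((1 - τ) * P.b0 + τ * P.b1) * (SC * y)
        + SC * ((1 - τ) * P.c0 + τ * P.c1) := by
    rw [← SC_af X0 X1, ← SC_af P.c0 P.c1, ← SC_af P.b0 P.b1]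
    ring
  rw [e]
  have h2 := mul_le_mul_of_nonneg_left hy.1 hB
  have h3 := qr_ge (P.b1 - P.b0) (Y.l1 - Y.l0) τ h0 h1
  have h4 := le_abs_self (((P.b1 - P.b0 : ℤ) : ℝ) * ((Y.l1 - Y.l0 : ℤ) : ℝ))
  have h5 : 0 ≤ τ * (1 - τ) := mul_nonneg h0 h1'
  have h6 := mul_le_mul_of_nonneg_left h4 h5
  have h7 : 0 ≤ τ * (1 - τ) * ((X1 : ℝ) - X0) ^ 2 := mul_nonneg h5 (sq_nonneg _)
  unfold FU
  push_cast at h3 h6 ⊢
  nlinarith [h2, h3, h6, h7]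

theorem FL_le {P : Par} {Y : Ya} {X0 X1 : ℤ} {τ y : ℝ} (h0 : 0 ≤ τ) (h1 : τ ≤ 1)
    (hb0 : 0 ≤ P.b0) (hb1 : 0 ≤ P.b1) (hy : Y.mem τ y) :
    (1 - τ) * (FL P Y (X1 - X0) X0 P.c0 P.b0 Y.u0 : ℝ)
        + τ * (FL P Y (X1 - X0) X1 P.c1 P.b1 Y.u1 : ℝ) ≤
      SC ^ 2 * (af X0 X1 τ ^ 2 - af P.b0 P.b1 τ * y + af P.c0 P.c1 τ) := by
  have hb0' : (0 : ℝ) ≤ P.b0 := by exact_mod_cast hb0
  have hb1' : (0 : ℝ) ≤ P.b1 := by exact_mod_cast hb1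
  have h1' : 0 ≤ 1 - τ := by linarith
  have hB : 0 ≤ (1 - τ) * (P.b0 : ℝ) + τ * P.b1 := add_nonneg (mul_nonneg h1' hb0') (mul_nonneg h0 hb1')
  have e : SC ^ 2 * (af X0 X1 τ ^ 2 - af P.b0 P.b1 τ * y + af P.c0 P.c1 τ) =
      ((1 - τ) * X0 + τ * X1) ^ 2 - ((1 - τ) * P.b0 + τ * P.b1) * (SC * y)
        + SC * ((1 - τ) * P.c0 + τ * P.c1) := by
    rw [← SC_af X0 X1, ← SC_af P.c0 P.c1, ← SC_af P.b0 P.b1]
    ring
  rw [e]
  have h2 := mul_le_mul_of_nonneg_left hy.2 hB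
  have h3 := qr_ge (P.b1 - P.b0) (Y.u1 - Y.u0) τ h0 h1
  have h4 := neg_abs_le (((P.b1 - P.b0 : ℤ) : ℝ) * ((Y.u1 - Y.u0 : ℤ) : ℝ))
  have h5 : 0 ≤ τ * (1 - τ) := mul_nonneg h0 h1'
  have h6 := mul_le_mul_of_nonneg_left h4 h5
  have h7 := qr_ge (X1 - X0) (X1 - X0) τ h0 h1
  have h8 : |((X1 - X0 : ℤ) : ℝ) * ((X1 - X0 : ℤ) : ℝ)| = ((X1 : ℝ) - X0) ^ 2 := by
    push_cast
    rw [← sq, abs_of_nonneg (sq_nonneg _)]
  rw [h8] at h7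
  unfold FL
  push_cast at h3 h6 h7 ⊢
  nlinarith [h2, h3, h6, h7]

end Pool.Agent.Work.MP_99322d_an.L
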