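import Pool.Agent.Work.MP_99322d_an.L.Check

/-!
# Data of one piece and its check (helper50)
-/

set_option autoImplicit false

open Set Filter Topology

namespace Pool.Agent.Work.MP_99322d_an.L

/-- a conjunction over `0, …, n-1` -/
def allB (P : ℕ → Bool) : ℕ → Bool
  | 0 => true
  | n + 1 => P n && allB P n

theorem allB_spec {P : ℕ → Bool} {n : ℕ} (h : allB P n = true) : ∀ i, i < n → P i = true := by
  induction n with
  | zero => intro i hi; omega
  | succ n ih =>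
    intro i hi
    unfold allB at h
    rw [Bool.and_eq_true] at h
    rcases Nat.lt_succ_iff_lt_or_eq.1 hi with h1 | h1
    · exact ih h.2 i h1
    · rw [h1]
      exact h.1

/-- the `i`-th block of `w` bits -/
def get (w X i : ℕ) : ℕ := (X >>> (w * i)) % 2 ^ w

/-- the graph: signs and successors -/
structure Graph where
  n : ℕ
  sg : ℕ → ℕ
  s1 : ℕ → ℕ
  s2 : ℕ → ℕ
  s3 : ℕ → ℕ
  fst : ℕ → ℕ
  cnt : ℕ → ℕ

/-- the end points at the two ends of the piece -/
structure Pts where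
  l0 : ℕ → ℤ
  l1 : ℕ → ℤ
  r0 : ℕ → ℤ
  r1 : ℕ → ℤ

/-- packed graph; type code `sg + 2 s1 + 4 s2 + 8 s3` -/
def mkGraph (n T F C : ℕ) : Graph where
  n := n
  sg := fun i => get 8 T i % 2
  s1 := fun i => get 8 T i / 2 % 2
  s2 := fun i => get 8 T i / 4 % 2
  s3 := fun i => get 8 T i / 8
  fst := fun i => get 16 F i
  cnt := fun i => get 16 C i

/-- packed end points, offset `4 * 2^96 = 2^98` -/
def mkPts (L0 L1 R0 R1 : ℕ) : Pts where
  l0 := fun i => Int.subNatNat (get 100 L0 i) 316912650057057350374175801344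
  l1 := fun i => Int.subNatNat (get 100 L1 i) 316912650057057350374175801344
  r0 := fun i => Int.subNatNat (get 100 R0 i) 316912650057057350374175801344
  r1 := fun i => Int.subNatNat (get 100 R1 i) 316912650057057350374175801344

/-- sign and order of the interval `i` -/
def ckI (G : Graph) (D : Pts) (i : ℕ) : Bool :=
  decide (D.l0 i ≤ D.r0 i) && decide (D.l1 i ≤ D.r1 i) &&
  (if G.sg i = 0 then decide (0 ≤ D.l0 i) && decide (0 ≤ D.l1 i) && decide (D.r0 i ≤ 2 * SC) &&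
      decide (D.r1 i ≤ 2 * SC)
    else if G.sg i = 1 then decide (D.r0 i ≤ 0) && decide (D.r1 i ≤ 0) && decide (-2 * SC ≤ D.l0 i) &&
      decide (-2 * SC ≤ D.l1 i)
    else false)

/-- signs of the successor `w` of `i` -/
def ckS (G : Graph) (i w : ℕ) : Bool :=
  decide (w < G.n) && decide (G.s1 w = G.sg i) && decide (G.s2 w = G.s1 i) &&
    (decide (G.s3 w = G.s2 i) || decide (G.s3 w = 2))

/-- `w` is to the left of `w'` -/
def ckO (D : Pts) (w w' : ℕ) : Bool := decide (D.r0 w < D.l0 w') && decide (D.r1 w < D.l1 w')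

/-- upper bounds of the image of the end point `(X0, X1)` by `(U0, U1)` -/
def ckU (P : Par) (Y : Ya) (X0 X1 U0 U1 : ℤ) : Bool :=
  decide (FU P Y X0 P.c0 P.b0 Y.l0 ≤ U0 * SC) && decide (FU P Y X1 P.c1 P.b1 Y.l1 ≤ U1 * SC)

/-- lower bounds -/
def ckL (P : Par) (Y : Ya) (X0 X1 U0 U1 : ℤ) : Bool :=
  decide (U0 * SC ≤ FL P Y (X1 - X0) X0 P.c0 P.b0 Y.u0) &&
    decide (U1 * SC ≤ FL P Y (X1 - X0) X1 P.c1 P.b1 Y.u1)

/-- the images of the two end points of `i`; `a` first and `z` last successor -/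
def ckF (G : Graph) (D : Pts) (P : Par) (i a z : ℕ) : Bool :=
  if G.sg i = 0 then
    ckU P (yenc P (G.s1 i) (G.s2 i) (G.s3 i) (D.l0 i) (D.l1 i)) (D.l0 i) (D.l1 i) (D.l0 a) (D.l1 a) &&
    ckL P (yenc P (G.s1 i) (G.s2 i) (G.s3 i) (D.r0 i) (D.r1 i)) (D.r0 i) (D.r1 i) (D.r0 z) (D.r1 z)
  else
    ckL P (yenc P (G.s1 i) (G.s2 i) (G.s3 i) (D.l0 i) (D.l1 i)) (D.l0 i) (D.l1 i) (D.r0 z) (D.r1 z) &&
    ckU P (yenc P (G.s1 i) (G.s2 i) (G.s3 i) (D.r0 i) (D.r1 i)) (D.r0 i) (D.r1 i) (D.l0 a) (D.l1 a)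

/-- the combinatorial check of the vertex `i` (no parameters) -/
def ckV (G : Graph) (D : Pts) (i : ℕ) : Bool :=
  ckI G D i && allB (fun j => ckS G i (G.fst i + j)) (G.cnt i) &&
    allB (fun j => ckO D (G.fst i + j) (G.fst i + j + 1)) (G.cnt i - 1)

/-- the check of the vertex `i` -/
def ck (G : Graph) (D : Pts) (P : Par) (i : ℕ) : Bool :=
  ckV G D i && (if G.cnt i = 0 then true else ckF G D P i (G.fst i) (G.fst i + (G.cnt i - 1)))

end Pool.Agent.Work.MP_99322d_an.L
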