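import Mathlib

/-!
# Sharp enclosures of the previous coordinate (helper99)

`y ^ 2 = x - c + b z`, `z ^ 2 = y - c + b w`, `w0 ≤ w ≤ w1`, with known signs of `y` and `z`.
Eight tests, two for each pair of signs.
-/

set_option autoImplicit false

namespace Pool.Agent.Work.MP_99322d_an.L

variable {c b x y z w w0 w1 : ℝ}

/-- signs `+ -`, lower bound -/
theorem encl_pm_lo (hb : 0 ≤ b) (h1 : y ^ 2 = x - c + b * z) (h2 : z ^ 2 = y - c + b * w)
    (hy : 0 ≤ y) (hw : w ≤ w1) {ya za : ℝ} (hza : za ≤ 0)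
    (t1 : ya - c + b * w1 ≤ za ^ 2) (t2 : ya ^ 2 - b * za < x - c) : ya < y := by
  by_contra hc
  have hc' : y ≤ ya := not_lt.mp hc
  have hz2 : z ^ 2 ≤ za ^ 2 := by nlinarith [mul_le_mul_of_nonneg_left hw hb]
  have hzz : za ≤ z := by
    by_contra h
    have : z < za := not_le.mp h
    nlinarith
  nlinarith [mul_le_mul_of_nonneg_left hzz hb, mul_self_le_mul_self hy hc']

/-- signs `+ -`, upper bound -/
theorem encl_pm_hi (hb : 0 ≤ b) (h1 : y ^ 2 = x - c + b * z) (h2 : z ^ 2 = y - c + b * w)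
    (hz : z ≤ 0) (hw : w0 ≤ w) {yb zb : ℝ} (hyb : 0 ≤ yb)
    (t1 : zb ^ 2 ≤ yb - c + b * w0) (t2 : x - c < yb ^ 2 - b * zb) : y < yb := by
  by_contra hc
  have hc' : yb ≤ y := not_lt.mp hc
  have hz2 : zb ^ 2 ≤ z ^ 2 := by nlinarith [mul_le_mul_of_nonneg_left hw hb]
  have hzz : z ≤ zb := by
    by_contra h
    have h' : zb < z := not_le.mp h
    nlinarith
  nlinarith [mul_le_mul_of_nonneg_left hzz hb, mul_self_le_mul_self hyb hc']

/-- signs `- +`, upper bound (`yb` is an upper bound of `y ≤ 0`) -/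
theorem encl_mp_hi (hb : 0 ≤ b) (h1 : y ^ 2 = x - c + b * z) (h2 : z ^ 2 = y - c + b * w)
    (hy : y ≤ 0) (hz : 0 ≤ z) (hw : w0 ≤ w) {yb zb : ℝ}
    (t1 : zb ^ 2 ≤ yb - c + b * w0) (t2 : yb ^ 2 - b * zb < x - c) : y < yb := by
  by_contra hc
  have hc' : yb ≤ y := not_lt.mp hc
  have hz2 : zb ^ 2 ≤ z ^ 2 := by nlinarith [mul_le_mul_of_nonneg_left hw hb]
  have hzz : zb ≤ z := by
    by_contra h
    have h' : z < zb := not_le.mp h
    nlinarith
  nlinarith [mul_le_mul_of_nonneg_left hzz hb, mul_self_le_mul_self (neg_nonneg.mpr hy)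
    (neg_le_neg hc')]

/-- signs `- +`, lower bound -/
theorem encl_mp_lo (hb : 0 ≤ b) (h1 : y ^ 2 = x - c + b * z) (h2 : z ^ 2 = y - c + b * w)
    (hw : w ≤ w1) {ya za : ℝ} (hya : ya ≤ 0) (hza : 0 ≤ za)
    (t1 : ya - c + b * w1 ≤ za ^ 2) (t2 : x - c < ya ^ 2 - b * za) : ya < y := by
  by_contra hc
  have hc' : y ≤ ya := not_lt.mp hc
  have hz2 : z ^ 2 ≤ za ^ 2 := by nlinarith [mul_le_mul_of_nonneg_left hw hb]
  have hzz : z ≤ za := by
    by_contra h
    have h' : za < z := not_le.mp h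
    nlinarith
  nlinarith [mul_le_mul_of_nonneg_left hzz hb, mul_self_le_mul_self (neg_nonneg.mpr hya)
    (neg_le_neg hc')]

/-- signs `+ +`, upper bound -/
theorem encl_pp_hi (hb : 0 ≤ b) (h1 : y ^ 2 = x - c + b * z) (h2 : z ^ 2 = y - c + b * w)
    (hw : w ≤ w1) {yb zb : ℝ} (hyb : 0 ≤ yb)
    (t1 : yb - c + b * w1 ≤ zb ^ 2) (t2 : x - c < yb ^ 2 - b * zb)
    (t3 : b ≤ 4 * (yb * zb)) : y < yb := by
  by_contra hc
  have hc' : yb ≤ y := not_lt.mp hc
  have hsq : 2 * yb * (y - yb) ≤ y ^ 2 - yb ^ 2 := by nlinarith [sq_nonneg (y - yb)]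
  by_cases hzz : z ≤ zb
  · nlinarith [mul_le_mul_of_nonneg_left hzz hb, mul_self_le_mul_self hyb hc']
  · have h' : zb < z := not_le.mp hzz
    have h3 : z ^ 2 - zb ^ 2 ≤ y - yb := by nlinarith [mul_le_mul_of_nonneg_left hw hb]
    have h4 : 2 * zb * (z - zb) ≤ y - yb := by nlinarith [sq_nonneg (z - zb)]
    have h5 : 2 * yb * (2 * zb * (z - zb)) ≤ 2 * yb * (y - yb) :=
      mul_le_mul_of_nonneg_left h4 (by linarith)
    have h6 : b * (z - zb) ≤ 4 * (yb * zb) * (z - zb) :=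
      mul_le_mul_of_nonneg_right t3 (by linarith)
    nlinarith

/-- signs `+ +`, lower bound -/
theorem encl_pp_lo (h1 : y ^ 2 = x - c + b * z) (h2 : z ^ 2 = y - c + b * w)
    (hb : 0 ≤ b) (hy : 0 ≤ y) (hz : 0 ≤ z) (hw : w0 ≤ w) {ya za z0 : ℝ}
    (t0 : z0 ^ 2 ≤ -c + b * w0)
    (t1 : za ^ 2 ≤ ya - c + b * w0) (t2 : ya ^ 2 - b * za < x - c)
    (t3 : b ≤ ya * (za + z0)) : ya < y := by
  by_contra hc
  have hc' : y ≤ ya := not_lt.mp hc
  have hbw := mul_le_mul_of_nonneg_left hw hb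
  have hz0z : z0 ≤ z := by
    by_contra h
    have h' : z < z0 := not_le.mp h
    nlinarith
  by_cases hzz : za ≤ z
  · nlinarith [mul_le_mul_of_nonneg_left hzz hb, mul_self_le_mul_self hy hc']
  · have h' : z < za := not_le.mp hzz
    have h3 : (za - z) * (za + z) ≤ ya - y := by nlinarith
    have h4 : b * (za - z) ≤ ya * (za + z0) * (za - z) :=
      mul_le_mul_of_nonneg_right t3 (by linarith)
    have hya0 : 0 ≤ ya := le_trans hy hc'
    have h5 : ya * (za + z0) * (za - z) ≤ ya * ((za - z) * (za + z)) := by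
      have : (za + z0) * (za - z) ≤ (za - z) * (za + z) := by nlinarith
      calc ya * (za + z0) * (za - z) = ya * ((za + z0) * (za - z)) := by ring
        _ ≤ ya * ((za - z) * (za + z)) := mul_le_mul_of_nonneg_left this hya0
    have h6 : ya * ((za - z) * (za + z)) ≤ ya * (ya - y) := mul_le_mul_of_nonneg_left h3 hya0
    have h7 : ya * (ya - y) ≤ ya ^ 2 - y ^ 2 := by nlinarith [mul_nonneg hy (sub_nonneg.mpr hc')]
    nlinarith

/-- signs `- -`, lower bound -/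
theorem encl_mm_lo (hb : 0 ≤ b) (h1 : y ^ 2 = x - c + b * z) (h2 : z ^ 2 = y - c + b * w)
    (hz : z ≤ 0) (hw : w0 ≤ w) {ya za : ℝ} (hya : ya ≤ 0)
    (t1 : za ^ 2 ≤ ya - c + b * w0) (t2 : x - c < ya ^ 2 - b * za)
    (t3 : b ≤ 2 * (ya * za)) : ya < y := by
  by_contra hc
  have hc' : y ≤ ya := not_lt.mp hc
  have hbw := mul_le_mul_of_nonneg_left hw hb
  by_cases hzz : z ≤ za
  · nlinarith [mul_le_mul_of_nonneg_left hzz hb, mul_self_le_mul_self (neg_nonneg.mpr hya)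
      (neg_le_neg hc')]
  · have h' : za < z := not_le.mp hzz
    have h3 : (z - za) * (-za) ≤ ya - y := by nlinarith
    have h4 : b * (z - za) ≤ 2 * (ya * za) * (z - za) :=
      mul_le_mul_of_nonneg_right t3 (by linarith)
    have h5 : 2 * -ya * ((z - za) * (-za)) ≤ 2 * -ya * (ya - y) :=
      mul_le_mul_of_nonneg_left h3 (by linarith)
    have h7 : 2 * -ya * (ya - y) ≤ y ^ 2 - ya ^ 2 := by nlinarith [sq_nonneg (y - ya)]
    nlinarith

/-- signs `- -`, upper bound -/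
theorem encl_mm_hi (hb : 0 ≤ b) (h1 : y ^ 2 = x - c + b * z) (h2 : z ^ 2 = y - c + b * w)
    (hy : y ≤ 0) (hw : w ≤ w1) {yb zb : ℝ} (hyb : yb ≤ 0)
    (t1 : yb - c + b * w1 ≤ zb ^ 2) (t2 : yb ^ 2 - b * zb < x - c)
    (t3 : b ≤ 2 * (yb * zb)) : y < yb := by
  by_contra hc
  have hc' : yb ≤ y := not_lt.mp hc
  have hbw := mul_le_mul_of_nonneg_left hw hb
  by_cases hzz : zb ≤ z
  · nlinarith [mul_le_mul_of_nonneg_left hzz hb, mul_self_le_mul_self (neg_nonneg.mpr hy)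
      (neg_le_neg hc')]
  · have h' : z < zb := not_le.mp hzz
    have h3 : (zb - z) * (2 * -zb) ≤ y - yb := by nlinarith [sq_nonneg (zb - z)]
    have h4 : b * (zb - z) ≤ 2 * (yb * zb) * (zb - z) :=
      mul_le_mul_of_nonneg_right t3 (by linarith)
    have h5 : -yb * ((zb - z) * (2 * -zb)) ≤ -yb * (y - yb) :=
      mul_le_mul_of_nonneg_left h3 (by linarith)
    have h7 : -yb * (y - yb) ≤ yb ^ 2 - y ^ 2 := by
      nlinarith [mul_nonneg (neg_nonneg.mpr hy) (sub_nonneg.mpr hc')]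
    nlinarith

end Pool.Agent.Work.MP_99322d_an.L
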