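import Pool.Agent.Work.MP_99322d_an.L.Check
import Pool.Agent.Work.MP_99322d_an.L.Encl

/-!
# Sharp enclosure of a small previous coordinate (helper99)

Drop in replacement `yencS` of `yenc`: the centre comes from an (unverified) integer Newton
iteration for `y ^ 2 - b z (y) = x - c` at both ends of the piece, and is then verified by the
monotone tests of `L/Encl.lean`; if a test fails the old enclosure is returned.
-/

set_option autoImplicit false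

open Set Filter Topology

namespace Pool.Agent.Work.MP_99322d_an.L

/-- radius of the enclosure, `2^60` at scale `2^96` -/
def dl : ℤ := 1152921504606846976

/-- approximate `D_2` for given `y` -/
def zap (s2 : ℕ) (C B W y : ℤ) : ℤ :=
  if s2 = 1 then -((isq ((y - C) * SC + B * W).toNat : ℕ) : ℤ)
  else ((isq ((y - C) * SC + B * W).toNat : ℕ) : ℤ)

/-- Newton step -/
def nst (X C B y z : ℤ) : ℤ :=
  y - (y * y - B * z - (X - C) * SC) / (2 * y - B * SC / (2 * z))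

/-- Newton iteration -/
def yit (s1 s2 : ℕ) (X C B W : ℤ) : ℕ → ℤ
  | 0 => if s1 = 1 then -604462909807314587353088 else 604462909807314587353088
  | k + 1 => nst X C B (yit s1 s2 X C B W k) (zap s2 C B W (yit s1 s2 X C B W k))

/-- `(a - c) SC + b w ≤ z^2` at both ends -/
def tZU (P : Par) (a0 a1 w z : ℤ) : Bool :=
  decide ((a0 - P.c0) * SC + P.b0 * w ≤ z * z) && decide ((a1 - P.c1) * SC + P.b1 * w ≤ z * z)

/-- `z^2 ≤ (a - c) SC + b w` at both ends -/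
def tZL (P : Par) (a0 a1 w z : ℤ) : Bool :=
  decide (z * z ≤ (a0 - P.c0) * SC + P.b0 * w) && decide (z * z ≤ (a1 - P.c1) * SC + P.b1 * w)

/-- `a^2 - b z < x - c` at both ends -/
def tLT (P : Par) (X0 X1 a0 a1 z : ℤ) : Bool :=
  decide (a0 * a0 - P.b0 * z < (X0 - P.c0) * SC) && decide (a1 * a1 - P.b1 * z < (X1 - P.c1) * SC)

/-- `x - c < a^2 - b z` at both ends, with the loss -/
def tGT (P : Par) (X0 X1 a0 a1 z : ℤ) : Bool :=
  decide ((X0 - P.c0) * SC + qr (a1 - a0) (a1 - a0) < a0 * a0 - P.b0 * z) &&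
    decide ((X1 - P.c1) * SC + qr (a1 - a0) (a1 - a0) < a1 * a1 - P.b1 * z)

/-- `b ≤ k a z` at both ends -/
def tB (P : Par) (k a0 a1 z : ℤ) : Bool :=
  decide (P.b0 * SC ≤ k * (a0 * z)) && decide (P.b1 * SC ≤ k * (a1 * z))

/-- `z` with `z^2 ≥` both values -/
def zU (P : Par) (a0 a1 w : ℤ) : ℤ :=
  rhi (max ((a0 - P.c0) * SC + P.b0 * w) ((a1 - P.c1) * SC + P.b1 * w))

/-- `z` with `z^2 ≤` both values -/
def zL (P : Par) (a0 a1 w : ℤ) : ℤ :=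
  rlo (min ((a0 - P.c0) * SC + P.b0 * w) ((a1 - P.c1) * SC + P.b1 * w))

theorem af_sub {P : Par} {a0 a1 w : ℤ} {τ : ℝ} :
    SC ^ 2 * (af a0 a1 τ - af P.c0 P.c1 τ + af P.b0 P.b1 τ * ((w : ℝ) / SC)) =
      (1 - τ) * ((a0 - P.c0) * SC + P.b0 * w) + τ * ((a1 - P.c1) * SC + P.b1 * w) := by
  have hS := SC_pos
  unfold af
  field_simp
  ring

theorem tZU_spec {P : Par} {a0 a1 w z : ℤ} {τ : ℝ} (h0 : 0 ≤ τ) (h1 : τ ≤ 1)
    (h : tZU P a0 a1 w z = true) :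
    af a0 a1 τ - af P.c0 P.c1 τ + af P.b0 P.b1 τ * ((w : ℝ) / SC) ≤ ((z : ℝ) / SC) ^ 2 := by
  have hS := SC_pos
  unfold tZU at h
  simp only [Bool.and_eq_true, decide_eq_true_eq] at h
  have e0 : (((a0 - P.c0) * SC + P.b0 * w : ℤ) : ℝ) ≤ ((z * z : ℤ) : ℝ) := by exact_mod_cast h.1
  have e1 : (((a1 - P.c1) * SC + P.b1 * w : ℤ) : ℝ) ≤ ((z * z : ℤ) : ℝ) := by exact_mod_cast h.2
  push_cast at e0 e1
  have key := af_sub (P := P) (a0 := a0) (a1 := a1) (w := w) (τ := τ)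
  have e2 : (SC : ℝ) ^ 2 * ((z : ℝ) / SC) ^ 2 = z * z := by
    field_simp
  have hS2 : (0 : ℝ) < (SC : ℝ) ^ 2 := by positivity
  refine le_of_mul_le_mul_left ?_ hS2
  rw [key, e2]
  have h1' : 0 ≤ 1 - τ := by linarith
  nlinarith [mul_le_mul_of_nonneg_left e0 h1', mul_le_mul_of_nonneg_left e1 h0]

theorem tZL_spec {P : Par} {a0 a1 w z : ℤ} {τ : ℝ} (h0 : 0 ≤ τ) (h1 : τ ≤ 1)
    (h : tZL P a0 a1 w z = true) :
    ((z : ℝ) / SC) ^ 2 ≤ af a0 a1 τ - af P.c0 P.c1 τ + af P.b0 P.b1 τ * ((w : ℝ) / SC) := by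
  have hS := SC_pos
  unfold tZL at h
  simp only [Bool.and_eq_true, decide_eq_true_eq] at h
  have e0 : ((z * z : ℤ) : ℝ) ≤ (((a0 - P.c0) * SC + P.b0 * w : ℤ) : ℝ) := by exact_mod_cast h.1
  have e1 : ((z * z : ℤ) : ℝ) ≤ (((a1 - P.c1) * SC + P.b1 * w : ℤ) : ℝ) := by exact_mod_cast h.2
  push_cast at e0 e1
  have key := af_sub (P := P) (a0 := a0) (a1 := a1) (w := w) (τ := τ)
  have e2 : (SC : ℝ) ^ 2 * ((z : ℝ) / SC) ^ 2 = z * z := by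
    field_simp
  have hS2 : (0 : ℝ) < (SC : ℝ) ^ 2 := by positivity
  refine le_of_mul_le_mul_left ?_ hS2
  rw [key, e2]
  have h1' : 0 ≤ 1 - τ := by linarith
  nlinarith [mul_le_mul_of_nonneg_left e0 h1', mul_le_mul_of_nonneg_left e1 h0]

theorem tLT_spec {P : Par} {X0 X1 a0 a1 z : ℤ} {τ : ℝ} (h0 : 0 ≤ τ) (h1 : τ ≤ 1)
    (h : tLT P X0 X1 a0 a1 z = true) :
    af a0 a1 τ ^ 2 - af P.b0 P.b1 τ * ((z : ℝ) / SC) < af X0 X1 τ - af P.c0 P.c1 τ := by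
  have hS := SC_pos
  unfold tLT at h
  simp only [Bool.and_eq_true, decide_eq_true_eq] at h
  have e0 : ((a0 * a0 - P.b0 * z + 1 : ℤ) : ℝ) ≤ (((X0 - P.c0) * SC : ℤ) : ℝ) := by
    exact_mod_cast Int.add_one_le_iff.2 h.1
  have e1 : ((a1 * a1 - P.b1 * z + 1 : ℤ) : ℝ) ≤ (((X1 - P.c1) * SC : ℤ) : ℝ) := by
    exact_mod_cast Int.add_one_le_iff.2 h.2
  push_cast at e0 e1
  have hS2 : (0 : ℝ) < (SC : ℝ) ^ 2 := by positivity
  refine lt_of_mul_lt_mul_left ?_ hS2.le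
  have h1' : 0 ≤ 1 - τ := by linarith
  have k1 : (SC : ℝ) ^ 2 * (af a0 a1 τ ^ 2 - af P.b0 P.b1 τ * ((z : ℝ) / SC)) =
      ((1 - τ) * a0 + τ * a1) ^ 2 - ((1 - τ) * P.b0 + τ * P.b1) * z := by
    unfold af
    field_simp
  have k2 : (SC : ℝ) ^ 2 * (af X0 X1 τ - af P.c0 P.c1 τ) =
      (1 - τ) * ((X0 - P.c0) * SC) + τ * ((X1 - P.c1) * SC) := by
    unfold af
    field_simp
    ring
  rw [k1, k2]
  have h5 : 0 ≤ τ * (1 - τ) * ((a1 : ℝ) - a0) ^ 2 := mul_nonneg (mul_nonneg h0 h1') (sq_nonneg _)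
  nlinarith [mul_le_mul_of_nonneg_left e0 h1', mul_le_mul_of_nonneg_left e1 h0, h5]

theorem tGT_spec {P : Par} {X0 X1 a0 a1 z : ℤ} {τ : ℝ} (h0 : 0 ≤ τ) (h1 : τ ≤ 1)
    (h : tGT P X0 X1 a0 a1 z = true) :
    af X0 X1 τ - af P.c0 P.c1 τ < af a0 a1 τ ^ 2 - af P.b0 P.b1 τ * ((z : ℝ) / SC) := by
  have hS := SC_pos
  unfold tGT at h
  simp only [Bool.and_eq_true, decide_eq_true_eq] at h
  have e0 : (((X0 - P.c0) * SC + qr (a1 - a0) (a1 - a0) + 1 : ℤ) : ℝ) ≤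
      ((a0 * a0 - P.b0 * z : ℤ) : ℝ) := by
    exact_mod_cast Int.add_one_le_iff.2 h.1
  have e1 : (((X1 - P.c1) * SC + qr (a1 - a0) (a1 - a0) + 1 : ℤ) : ℝ) ≤
      ((a1 * a1 - P.b1 * z : ℤ) : ℝ) := by
    exact_mod_cast Int.add_one_le_iff.2 h.2
  push_cast at e0 e1
  have hS2 : (0 : ℝ) < (SC : ℝ) ^ 2 := by positivity
  refine lt_of_mul_lt_mul_left ?_ hS2.le
  have h1' : 0 ≤ 1 - τ := by linarith
  have k1 : (SC : ℝ) ^ 2 * (af a0 a1 τ ^ 2 - af P.b0 P.b1 τ * ((z : ℝ) / SC)) =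
      ((1 - τ) * a0 + τ * a1) ^ 2 - ((1 - τ) * P.b0 + τ * P.b1) * z := by
    unfold af
    field_simp
  have k2 : (SC : ℝ) ^ 2 * (af X0 X1 τ - af P.c0 P.c1 τ) =
      (1 - τ) * ((X0 - P.c0) * SC) + τ * ((X1 - P.c1) * SC) := by
    unfold af
    field_simp
    ring
  rw [k1, k2]
  have h7 := qr_ge (a1 - a0) (a1 - a0) τ h0 h1
  have h8 : |((a1 - a0 : ℤ) : ℝ) * ((a1 - a0 : ℤ) : ℝ)| = ((a1 : ℝ) - a0) ^ 2 := by
    push_cast
    rw [← sq, abs_of_nonneg (sq_nonneg _)]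
  rw [h8] at h7
  nlinarith [mul_le_mul_of_nonneg_left e0 h1', mul_le_mul_of_nonneg_left e1 h0, h7]

theorem tB_spec {P : Par} {k a0 a1 z : ℤ} {τ : ℝ} (h0 : 0 ≤ τ) (h1 : τ ≤ 1)
    (h : tB P k a0 a1 z = true) :
    af P.b0 P.b1 τ ≤ k * (af a0 a1 τ * ((z : ℝ) / SC)) := by
  have hS := SC_pos
  unfold tB at h
  simp only [Bool.and_eq_true, decide_eq_true_eq] at h
  have e0 : ((P.b0 * SC : ℤ) : ℝ) ≤ ((k * (a0 * z) : ℤ) : ℝ) := by exact_mod_cast h.1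
  have e1 : ((P.b1 * SC : ℤ) : ℝ) ≤ ((k * (a1 * z) : ℤ) : ℝ) := by exact_mod_cast h.2
  push_cast at e0 e1
  have hS2 : (0 : ℝ) < (SC : ℝ) ^ 2 := by positivity
  refine le_of_mul_le_mul_left ?_ hS2
  have h1' : 0 ≤ 1 - τ := by linarith
  have k1 : (SC : ℝ) ^ 2 * af P.b0 P.b1 τ = (1 - τ) * (P.b0 * SC) + τ * (P.b1 * SC) := by
    unfold af
    field_simp
  have k2 : (SC : ℝ) ^ 2 * (k * (af a0 a1 τ * ((z : ℝ) / SC))) =
      (1 - τ) * (k * (a0 * z)) + τ * (k * (a1 * z)) := by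
    unfold af
    field_simp
  rw [k1, k2]
  nlinarith [mul_le_mul_of_nonneg_left e0 h1', mul_le_mul_of_nonneg_left e1 h0]

/-- the tests for the candidates `(a0, a1)` (lower) and `(e0, e1)` (upper), `w0 ≤ D_3 ≤ w1` -/
def tsts (P : Par) (s1 s2 : ℕ) (X0 X1 w0 w1 a0 a1 e0 e1 : ℤ) : Bool :=
  if s1 = 0 then
    if s2 = 1 then
      (tZU P a0 a1 w1 (-(zU P a0 a1 w1)) && tLT P X0 X1 a0 a1 (-(zU P a0 a1 w1))) &&
      (tZL P e0 e1 w0 (-(zL P e0 e1 w0)) && tGT P X0 X1 e0 e1 (-(zL P e0 e1 w0))) &&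
      (decide (0 ≤ e0) && decide (0 ≤ e1))
    else if s2 = 0 then
      (tZL P a0 a1 w0 (zL P a0 a1 w0) && tLT P X0 X1 a0 a1 (zL P a0 a1 w0) &&
        tB P 1 a0 a1 (zL P a0 a1 w0 + SC) && tZL P 0 0 w0 SC) &&
      (tZU P e0 e1 w1 (zU P e0 e1 w1) && tGT P X0 X1 e0 e1 (zU P e0 e1 w1) &&
        tB P 4 e0 e1 (zU P e0 e1 w1)) && (decide (0 ≤ e0) && decide (0 ≤ e1))
    else false
  else if s1 = 1 then
    if s2 = 0 then
      (tZU P a0 a1 w1 (zU P a0 a1 w1) && tGT P X0 X1 a0 a1 (zU P a0 a1 w1)) &&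
      (tZL P e0 e1 w0 (zL P e0 e1 w0) && tLT P X0 X1 e0 e1 (zL P e0 e1 w0)) &&
      (decide (a0 ≤ 0) && decide (a1 ≤ 0))
    else if s2 = 1 then
      (tZL P a0 a1 w0 (-(zL P a0 a1 w0)) && tGT P X0 X1 a0 a1 (-(zL P a0 a1 w0)) &&
        tB P 2 a0 a1 (-(zL P a0 a1 w0))) &&
      (tZU P e0 e1 w1 (-(zU P e0 e1 w1)) && tLT P X0 X1 e0 e1 (-(zU P e0 e1 w1)) &&
        tB P 2 e0 e1 (-(zU P e0 e1 w1))) &&
      ((decide (a0 ≤ 0) && decide (a1 ≤ 0)) && (decide (e0 ≤ 0) && decide (e1 ≤ 0)))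
    else false
  else false

theorem af_nonneg {a0 a1 : ℤ} {τ : ℝ} (h0 : 0 ≤ τ) (h1 : τ ≤ 1) (k0 : 0 ≤ a0) (k1 : 0 ≤ a1) :
    0 ≤ af a0 a1 τ := by
  have hS := SC_pos
  have h1' : 0 ≤ 1 - τ := by linarith
  have k0' : (0 : ℝ) ≤ a0 := by exact_mod_cast k0
  have k1' : (0 : ℝ) ≤ a1 := by exact_mod_cast k1
  unfold af
  positivity

theorem af_nonpos {a0 a1 : ℤ} {τ : ℝ} (h0 : 0 ≤ τ) (h1 : τ ≤ 1) (k0 : a0 ≤ 0) (k1 : a1 ≤ 0) :
    af a0 a1 τ ≤ 0 := by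
  have hS := SC_pos
  have h1' : 0 ≤ 1 - τ := by linarith
  have k0' : (a0 : ℝ) ≤ 0 := by exact_mod_cast k0
  have k1' : (a1 : ℝ) ≤ 0 := by exact_mod_cast k1
  unfold af
  refine div_nonpos_of_nonpos_of_nonneg ?_ hS.le
  nlinarith [mul_nonneg h1' (neg_nonneg.2 k0'), mul_nonneg h0 (neg_nonneg.2 k1')]

theorem zU_pos (P : Par) (a0 a1 w : ℤ) : (0 : ℝ) ≤ ((zU P a0 a1 w : ℤ) : ℝ) / SC := by
  have hS := SC_pos
  have : (0 : ℝ) ≤ ((zU P a0 a1 w : ℤ) : ℝ) := by exact_mod_cast (rhi_pos _).le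
  positivity

theorem Sg0 {s : ℕ} {x : ℝ} (hs : s = 0) (h : x ∈ Sg s) : 0 ≤ x := by
  simp only [Sg, mem_ofPred_eq] at h
  rw [if_pos hs] at h
  exact h.1

theorem Sg1 {s : ℕ} {x : ℝ} (hs : s = 1) (h : x ∈ Sg s) : x ≤ 0 := by
  simp only [Sg, mem_ofPred_eq] at h
  rw [if_pos hs] at h
  exact h.2

theorem tsts_spec {P : Par} {s1 s2 : ℕ} {X0 X1 w0 w1 a0 a1 e0 e1 : ℤ} {τ y z t : ℝ}
    (h0 : 0 ≤ τ) (h1 : τ ≤ 1) (hb : 0 ≤ af P.b0 P.b1 τ)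
    (h : tsts P s1 s2 X0 X1 w0 w1 a0 a1 e0 e1 = true)
    (hy : y ∈ Sg s1) (hz : z ∈ Sg s2) (hw0 : (w0 : ℝ) / SC ≤ t) (hw1 : t ≤ (w1 : ℝ) / SC)
    (q1 : y ^ 2 = af X0 X1 τ - af P.c0 P.c1 τ + af P.b0 P.b1 τ * z)
    (q2 : z ^ 2 = y - af P.c0 P.c1 τ + af P.b0 P.b1 τ * t) :
    af a0 a1 τ < y ∧ y < af e0 e1 τ := by
  unfold tsts at h
  by_cases c1 : s1 = 0
  · rw [if_pos c1] at h
    have hy' := Sg0 c1 hy
    by_cases c2 : s2 = 1
    · rw [if_pos c2] at h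
      have hz' := Sg1 c2 hz
      simp only [Bool.and_eq_true, decide_eq_true_eq] at h
      obtain ⟨⟨⟨A1, A2⟩, B1, B2⟩, B3, B4⟩ := h
      have C1 := tZU_spec h0 h1 A1
      have C2 := tLT_spec h0 h1 A2
      have C3 := tZL_spec h0 h1 B1
      have C4 := tGT_spec h0 h1 B2
      refine ⟨encl_pm_lo hb q1 q2 hy' hw1 ?_ C1 C2, encl_pm_hi hb q1 q2 hz' hw0
        (af_nonneg h0 h1 B3 B4) C3 C4⟩
      have := zU_pos P a0 a1 w1
      push_cast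
      rw [neg_div]
      linarith
    · rw [if_neg c2] at h
      by_cases c3 : s2 = 0
      · rw [if_pos c3] at h
        have hz' := Sg0 c3 hz
        simp only [Bool.and_eq_true, decide_eq_true_eq] at h
        obtain ⟨⟨⟨⟨⟨A1, A2⟩, A3⟩, A4⟩, ⟨B1, B2⟩, B3⟩, B4, B5⟩ := h
        have C1 := tZL_spec h0 h1 A1
        have C2 := tLT_spec h0 h1 A2
        have C3 := tB_spec h0 h1 A3
        have C4 := tZL_spec h0 h1 A4
        have D1 := tZU_spec h0 h1 B1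
        have D2 := tGT_spec h0 h1 B2
        have D3 := tB_spec h0 h1 B3
        have hS := SC_pos
        refine ⟨encl_pp_lo (z0 := (SC : ℝ) / SC) q1 q2 hb hy' hz' hw0 ?_ C1 C2 ?_,
          encl_pp_hi hb q1 q2 hw1 (af_nonneg h0 h1 B4 B5) D1 D2 ?_⟩
        · have e : af 0 0 τ = 0 := by
            unfold af
            simp
          rw [e] at C4
          linarith
        · push_cast at C3
          rw [add_div] at C3
          linarith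
        · push_cast at D3
          exact D3
      · rw [if_neg c3] at h
        exact absurd h (by decide)
  · rw [if_neg c1] at h
    by_cases c2 : s1 = 1
    · rw [if_pos c2] at h
      have hy' := Sg1 c2 hy
      by_cases c3 : s2 = 0
      · rw [if_pos c3] at h
        have hz' := Sg0 c3 hz
        simp only [Bool.and_eq_true, decide_eq_true_eq] at h
        obtain ⟨⟨⟨A1, A2⟩, B1, B2⟩, B3, B4⟩ := h
        exact ⟨encl_mp_lo hb q1 q2 hw1 (af_nonpos h0 h1 B3 B4) (zU_pos P a0 a1 w1)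
            (tZU_spec h0 h1 A1) (tGT_spec h0 h1 A2),
          encl_mp_hi hb q1 q2 hy' hz' hw0 (tZL_spec h0 h1 B1) (tLT_spec h0 h1 B2)⟩
      · rw [if_neg c3] at h
        by_cases c4 : s2 = 1
        · rw [if_pos c4] at h
          have hz' := Sg1 c4 hz
          simp only [Bool.and_eq_true, decide_eq_true_eq] at h
          obtain ⟨⟨⟨⟨A1, A2⟩, A3⟩, ⟨B1, B2⟩, B3⟩, ⟨E1, E2⟩, E3, E4⟩ := h
          have D1 := tB_spec h0 h1 A3
          have D2 := tB_spec h0 h1 B3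
          push_cast at D1 D2
          refine ⟨encl_mm_lo hb q1 q2 hz' hw0 (af_nonpos h0 h1 E1 E2)
              (tZL_spec h0 h1 A1) (tGT_spec h0 h1 A2) ?_,
            encl_mm_hi hb q1 q2 hy' hw1 (af_nonpos h0 h1 E3 E4)
              (tZU_spec h0 h1 B1) (tLT_spec h0 h1 B2) ?_⟩
          · push_cast
            exact D1
          · push_cast
            exact D2
        · rw [if_neg c4] at h
          exact absurd h (by decide)
    · rw [if_neg c2] at h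
      exact absurd h (by decide)

/-- enclosure with given centres -/
def ysm (P : Par) (s1 s2 : ℕ) (X0 X1 : ℤ) (W : Iv) (c0 c1 : ℤ) (Y : Ya) : Ya :=
  if decide (|c0| < 604462909807314587353088) && decide (|c1| < 604462909807314587353088) &&
      tsts P s1 s2 X0 X1 W.lo W.hi (c0 - dl) (c1 - dl) (c0 + dl) (c1 + dl) then
    ⟨c0 - dl, c1 - dl, c0 + dl, c1 + dl⟩
  else Y

/-- drop in replacement of `yenc` -/
def yencS (P : Par) (s1 s2 s3 : ℕ) (X0 X1 : ℤ) : Ya :=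
  if X0 - P.c0 < 302231454903657293676544 then
    ysm P s1 s2 X0 X1 (zrec P s1 s2 s3 X0 X1 6).2
      (yit s1 s2 X0 P.c0 P.b0 (((zrec P s1 s2 s3 X0 X1 6).2.lo + (zrec P s1 s2 s3 X0 X1 6).2.hi) / 2) 12)
      (yit s1 s2 X1 P.c1 P.b1 (((zrec P s1 s2 s3 X0 X1 6).2.lo + (zrec P s1 s2 s3 X0 X1 6).2.hi) / 2) 12)
      (yenc P s1 s2 s3 X0 X1)
  else yenc P s1 s2 s3 X0 X1

theorem yencS_mem {P : Par} {s1 s2 s3 : ℕ} {X0 X1 : ℤ} {τ y z t v : ℝ} (h0 : 0 ≤ τ) (h1 : τ ≤ 1)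
    (hb0 : 0 ≤ P.b0) (hb1 : 0 ≤ P.b1) (hy : y ∈ Sg s1) (hz : z ∈ Sg s2) (ht : t ∈ Sg s3)
    (hv : v ∈ Icc (-2 : ℝ) 2)
    (e1 : y ^ 2 = af X0 X1 τ - af P.c0 P.c1 τ + af P.b0 P.b1 τ * z)
    (e2 : z ^ 2 = y - af P.c0 P.c1 τ + af P.b0 P.b1 τ * t)
    (e3 : t ^ 2 = z - af P.c0 P.c1 τ + af P.b0 P.b1 τ * v) :
    (yencS P s1 s2 s3 X0 X1).mem τ y := by
  have base := yenc_mem (X0 := X0) (X1 := X1) h0 h1 hb0 hb1 hy hz ht hv e1 e2 e3
  unfold yencS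
  split_ifs with hx
  · have hW := (zrec_mem (X0 := X0) (X1 := X1) h0 h1 hb0 hb1 hy hz ht hv e1 e2 e3 6).2
    unfold ysm
    split_ifs with hT
    · have hS := SC_pos
      have hb : 0 ≤ af P.b0 P.b1 τ := af_nonneg h0 h1 hb0 hb1
      simp only [Bool.and_eq_true] at hT
      have hw0 : (((zrec P s1 s2 s3 X0 X1 6).2.lo : ℤ) : ℝ) / SC ≤ t := by
        rw [div_le_iff₀ hS]
        linarith [hW.1]
      have hw1 : t ≤ (((zrec P s1 s2 s3 X0 X1 6).2.hi : ℤ) : ℝ) / SC := by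
        rw [le_div_iff₀ hS]
        linarith [hW.2]
      obtain ⟨r1, r2⟩ := tsts_spec h0 h1 hb hT.2 hy hz hw0 hw1 e1 e2
      constructor
      · have := mul_le_mul_of_nonneg_left r1.le hS.le
        rw [SC_af] at this
        exact this
      · have := mul_le_mul_of_nonneg_left r2.le hS.le
        rw [SC_af] at this
        exact this
    · exact base
  · exact base

end Pool.Agent.Work.MP_99322d_an.L
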