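import Pool.Agent.Work.MP_99322d_an.L.Data
import Pool.Agent.Work.MP_99322d_an.Top.Sides

/-!
# Soundness of the check (helper50)
-/

set_option autoImplicit false

open Set Filter Topology

namespace Pool.Agent.Work.MP_99322d_an.L

/-! ## the strips -/

/-- `x_{n-2}` -/
noncomputable def D2 (c b : ℝ) (p : ℝ × ℝ) : ℝ := (p.2 ^ 2 + c - p.1) / b
/-- `x_{n-3}` -/
noncomputable def D3 (c b : ℝ) (p : ℝ × ℝ) : ℝ := (D2 c b p ^ 2 + c - p.2) / b
/-- `x_{n-4}` -/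
noncomputable def D4 (c b : ℝ) (p : ℝ × ℝ) : ℝ := (D3 c b p ^ 2 + c - D2 c b p) / b

/-- the strip -/
def strip (c b l r : ℝ) (s1 s2 s3 : ℕ) : Set (ℝ × ℝ) :=
  {p | (l ≤ p.1 ∧ p.1 ≤ r) ∧ p.2 ∈ Sg s1 ∧ D2 c b p ∈ Sg s2 ∧ D3 c b p ∈ Sg s3 ∧
    D4 c b p ∈ Icc (-2 : ℝ) 2}

theorem Sg_sub (s : ℕ) : Sg s ⊆ Icc (-2 : ℝ) 2 := by
  intro x hx
  simp only [Sg, mem_ofPred_eq] at hx
  constructor
  · split_ifs at hx <;> linarith [hx.1, hx.2]
  · split_ifs at hx <;> linarith [hx.1, hx.2]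

theorem Sg_closed (s : ℕ) : IsClosed (Sg s) := by
  have : Sg s = Icc (if s = 0 then (0 : ℝ) else -2) (if s = 1 then (0 : ℝ) else 2) := by
    ext x
    simp only [Sg, mem_ofPred_eq, mem_Icc]
  rw [this]
  exact isClosed_Icc

theorem Sg_two : Sg 2 = Icc (-2 : ℝ) 2 := by
  ext x
  simp [Sg]

theorem strip_compact (c b l r : ℝ) (s1 s2 s3 : ℕ) : IsCompact (strip c b l r s1 s2 s3) := by
  have hc2 : Continuous (D2 c b) := by unfold D2; fun_prop
  have hc3 : Continuous (D3 c b) := by unfold D3; fun_prop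
  have hc4 : Continuous (D4 c b) := by unfold D4; fun_prop
  refine (isCompact_Icc.prod (isCompact_Icc : IsCompact (Icc (-2 : ℝ) 2))).of_isClosed_subset
    ?_ (fun p hp => (⟨hp.1, Sg_sub s1 hp.2.1⟩ : p ∈ Icc l r ×ˢ Icc (-2 : ℝ) 2))
  have h1 : IsClosed {p : ℝ × ℝ | l ≤ p.1 ∧ p.1 ≤ r} :=
    (isClosed_le continuous_const continuous_fst).inter (isClosed_le continuous_fst continuous_const)
  exact h1.inter (((Sg_closed s1).preimage continuous_snd).inter (((Sg_closed s2).preimage hc2).inter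
    (((Sg_closed s3).preimage hc3).inter (isClosed_Icc.preimage hc4))))

theorem D2_hen {c b : ℝ} (hb : b ≠ 0) (p : ℝ × ℝ) : D2 c b (hen c b p) = p.2 := by
  unfold D2 hen
  field_simp
  ring

theorem D3_hen {c b : ℝ} (hb : b ≠ 0) (p : ℝ × ℝ) : D3 c b (hen c b p) = D2 c b p := by
  unfold D3
  rw [D2_hen hb]
  rfl

theorem D4_hen {c b : ℝ} (hb : b ≠ 0) (p : ℝ × ℝ) : D4 c b (hen c b p) = D3 c b p := by
  unfold D4
  rw [D3_hen hb, D2_hen hb]
  rfl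

theorem D2_eq {c b : ℝ} (hb : b ≠ 0) (p : ℝ × ℝ) : p.2 ^ 2 = p.1 - c + b * D2 c b p := by
  unfold D2
  field_simp
  ring

theorem D3_eq {c b : ℝ} (hb : b ≠ 0) (p : ℝ × ℝ) : D2 c b p ^ 2 = p.2 - c + b * D3 c b p := by
  unfold D3
  field_simp
  ring

theorem D4_eq {c b : ℝ} (hb : b ≠ 0) (p : ℝ × ℝ) :
    D3 c b p ^ 2 = D2 c b p - c + b * D4 c b p := by
  unfold D4
  field_simp
  ring

/-- image of a strip -/
theorem hen_strip {c b l r l' r' : ℝ} {s1 s2 s3 t1 t2 t3 : ℕ} (hb : b ≠ 0)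
    (h1 : ∀ x : ℝ, l ≤ x → x ≤ r → x ∈ Sg t1) (h2 : t2 = s1) (h3 : t3 = s2 ∨ t3 = 2)
    {p : ℝ × ℝ} (hp : p ∈ strip c b l r s1 s2 s3) (h4 : l' ≤ (hen c b p).1)
    (h5 : (hen c b p).1 ≤ r') : hen c b p ∈ strip c b l' r' t1 t2 t3 := by
  obtain ⟨a1, a2, a3, a4, _⟩ := hp
  refine ⟨⟨h4, h5⟩, h1 _ a1.1 a1.2, ?_, ?_, ?_⟩
  · rw [D2_hen hb, h2]
    exact a2
  · rw [D3_hen hb]
    rcases h3 with h3 | h3
    · rw [h3]
      exact a3
    · rw [h3, Sg_two]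
      exact Sg_sub _ a3
  · rw [D4_hen hb]
    exact Sg_sub _ a4

/-! ## affine comparison -/

theorem af_mono {X0 X1 Y0 Y1 : ℤ} {τ : ℝ} (h0 : 0 ≤ τ) (h1 : τ ≤ 1) (h2 : X0 ≤ Y0) (h3 : X1 ≤ Y1) :
    af X0 X1 τ ≤ af Y0 Y1 τ := by
  unfold af
  have h4 : (X0 : ℝ) ≤ Y0 := by exact_mod_cast h2
  have h5 : (X1 : ℝ) ≤ Y1 := by exact_mod_cast h3
  refine div_le_div_of_nonneg_right ?_ SC_pos.le
  have h6 := mul_le_mul_of_nonneg_left h4 (sub_nonneg.2 h1)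
  have h7 := mul_le_mul_of_nonneg_left h5 h0
  linarith

theorem af_lt {X0 X1 Y0 Y1 : ℤ} {τ : ℝ} (h0 : 0 ≤ τ) (h1 : τ ≤ 1) (h2 : X0 < Y0) (h3 : X1 < Y1) :
    af X0 X1 τ < af Y0 Y1 τ := by
  unfold af
  have h4 : (X0 : ℝ) + 1 ≤ Y0 := by exact_mod_cast h2
  have h5 : (X1 : ℝ) + 1 ≤ Y1 := by exact_mod_cast h3
  refine div_lt_div_of_pos_right ?_ SC_pos
  have h6 := mul_le_mul_of_nonneg_left h4 (sub_nonneg.2 h1)
  have h7 := mul_le_mul_of_nonneg_left h5 h0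
  linarith

theorem af_const (m : ℤ) (τ : ℝ) : af (m * SC) (m * SC) τ = m := by
  unfold af
  have := SC_pos
  push_cast
  field_simp
  ring

/-- the meaning of an upper check -/
theorem ckU_spec {P : Par} {Y : Ya} {X0 X1 U0 U1 : ℤ} {τ y : ℝ} (h0 : 0 ≤ τ) (h1 : τ ≤ 1)
    (hb0 : 0 ≤ P.b0) (hb1 : 0 ≤ P.b1) (hy : Y.mem τ y) (h : ckU P Y X0 X1 U0 U1 = true) :
    af X0 X1 τ ^ 2 - af P.b0 P.b1 τ * y + af P.c0 P.c1 τ ≤ af U0 U1 τ := by
  have hS := SC_pos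
  unfold ckU at h
  rw [Bool.and_eq_true, decide_eq_true_eq, decide_eq_true_eq] at h
  have h2 := FU_ge (X0 := X0) (X1 := X1) h0 h1 hb0 hb1 hy
  have h3 : (FU P Y X0 P.c0 P.b0 Y.l0 : ℝ) ≤ ((U0 * SC : ℤ) : ℝ) := by exact_mod_cast h.1
  have h4 : (FU P Y X1 P.c1 P.b1 Y.l1 : ℝ) ≤ ((U1 * SC : ℤ) : ℝ) := by exact_mod_cast h.2
  have h5 := mul_le_mul_of_nonneg_left h3 (sub_nonneg.2 h1)
  have h6 := mul_le_mul_of_nonneg_left h4 h0
  have h7 : SC ^ 2 * af U0 U1 τ = SC * ((1 - τ) * U0 + τ * U1) := by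
    rw [← SC_af U0 U1 τ]
    ring
  have h8 : SC ^ 2 * (af X0 X1 τ ^ 2 - af P.b0 P.b1 τ * y + af P.c0 P.c1 τ) ≤ SC ^ 2 * af U0 U1 τ := by
    rw [h7]
    push_cast at h5 h6
    linarith
  exact le_of_mul_le_mul_left h8 (by positivity)

/-- the meaning of a lower check -/
theorem ckL_spec {P : Par} {Y : Ya} {X0 X1 U0 U1 : ℤ} {τ y : ℝ} (h0 : 0 ≤ τ) (h1 : τ ≤ 1)
    (hb0 : 0 ≤ P.b0) (hb1 : 0 ≤ P.b1) (hy : Y.mem τ y) (h : ckL P Y X0 X1 U0 U1 = true) :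
    af U0 U1 τ ≤ af X0 X1 τ ^ 2 - af P.b0 P.b1 τ * y + af P.c0 P.c1 τ := by
  have hS := SC_pos
  unfold ckL at h
  rw [Bool.and_eq_true, decide_eq_true_eq, decide_eq_true_eq] at h
  have h2 := FL_le (X0 := X0) (X1 := X1) h0 h1 hb0 hb1 hy
  have h3 : ((U0 * SC : ℤ) : ℝ) ≤ (FL P Y (X1 - X0) X0 P.c0 P.b0 Y.u0 : ℝ) := by exact_mod_cast h.1
  have h4 : ((U1 * SC : ℤ) : ℝ) ≤ (FL P Y (X1 - X0) X1 P.c1 P.b1 Y.u1 : ℝ) := by exact_mod_cast h.2
  have h5 := mul_le_mul_of_nonneg_left h3 (sub_nonneg.2 h1)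
  have h6 := mul_le_mul_of_nonneg_left h4 h0
  have h7 : SC ^ 2 * af U0 U1 τ = SC * ((1 - τ) * U0 + τ * U1) := by
    rw [← SC_af U0 U1 τ]
    ring
  have h8 : SC ^ 2 * af U0 U1 τ ≤ SC ^ 2 * (af X0 X1 τ ^ 2 - af P.b0 P.b1 τ * y + af P.c0 P.c1 τ) := by
    rw [h7]
    push_cast at h5 h6
    linarith
  exact le_of_mul_le_mul_left h8 (by positivity)

/-! ## the graph -/

section

variable {G : Graph} {D : Pts} {P : Par}

/-- the edges -/
def Ed (G : Graph) (i w : Fin G.n) : Prop := G.fst i ≤ w ∧ (w : ℕ) < G.fst i + G.cnt i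

/-- all checks -/
def AllOK (G : Graph) (D : Pts) (P : Par) : Prop := ∀ i, i < G.n → ck G D P i = true

theorem AllOK.V (h : AllOK G D P) {i : ℕ} (hi : i < G.n) : ckV G D i = true := by
  have := h i hi
  unfold ck at this
  rw [Bool.and_eq_true] at this
  exact this.1

theorem AllOK.I (h : AllOK G D P) {i : ℕ} (hi : i < G.n) : ckI G D i = true := by
  have := h.V hi
  unfold ckV at this
  rw [Bool.and_eq_true, Bool.and_eq_true] at this
  exact this.1.1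

theorem AllOK.lr (h : AllOK G D P) {i : ℕ} (hi : i < G.n) : D.l0 i ≤ D.r0 i ∧ D.l1 i ≤ D.r1 i := by
  have := h.I hi
  unfold ckI at this
  rw [Bool.and_eq_true, Bool.and_eq_true, decide_eq_true_eq, decide_eq_true_eq] at this
  exact this.1

theorem AllOK.S (h : AllOK G D P) {i j : ℕ} (hi : i < G.n) (hj : j < G.cnt i) :
    ckS G i (G.fst i + j) = true := by
  have := h.V hi
  unfold ckV at this
  rw [Bool.and_eq_true, Bool.and_eq_true] at this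
  exact allB_spec this.1.2 j hj

theorem AllOK.O (h : AllOK G D P) {i j : ℕ} (hi : i < G.n) (hj : j + 1 < G.cnt i) :
    D.r0 (G.fst i + j) < D.l0 (G.fst i + j + 1) ∧ D.r1 (G.fst i + j) < D.l1 (G.fst i + j + 1) := by
  have := h.V hi
  unfold ckV at this
  rw [Bool.and_eq_true] at this
  have h2 := allB_spec this.2 j (by omega)
  unfold ckO at h2
  rw [Bool.and_eq_true, decide_eq_true_eq, decide_eq_true_eq] at h2
  exact h2

theorem AllOK.bd (h : AllOK G D P) {i j : ℕ} (hi : i < G.n) (hj : j < G.cnt i) :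
    G.fst i + j < G.n := by
  have := h.S hi hj
  unfold ckS at this
  simp only [Bool.and_eq_true, decide_eq_true_eq] at this
  exact this.1.1.1

/-- order of the successors -/
theorem AllOK.ord (h : AllOK G D P) {i : ℕ} (hi : i < G.n) : ∀ k j : ℕ, j + k + 1 < G.cnt i →
    D.r0 (G.fst i + j) < D.l0 (G.fst i + (j + k + 1)) ∧
      D.r1 (G.fst i + j) < D.l1 (G.fst i + (j + k + 1)) := by
  intro k
  induction k with
  | zero =>
    intro j hj
    exact h.O hi hj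
  | succ k ih =>
    intro j hj
    have h1 := ih j (by omega)
    have h2 := h.lr (h.bd hi (j := j + k + 1) (by omega))
    have h3 := h.O hi (j := j + k + 1) (by omega)
    have e : G.fst i + (j + (k + 1) + 1) = G.fst i + (j + k + 1) + 1 := by omega
    rw [e]
    exact ⟨by omega, by omega⟩

theorem AllOK.ord' (h : AllOK G D P) {i j j' : ℕ} (hi : i < G.n) (hj : j < j') (hj' : j' < G.cnt i) :
    D.r0 (G.fst i + j) < D.l0 (G.fst i + j') ∧ D.r1 (G.fst i + j) < D.l1 (G.fst i + j') := by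
  obtain ⟨k, hk⟩ := Nat.exists_eq_add_of_lt hj
  have := h.ord hi k j (by omega)
  rw [hk]
  exact this

/-- the first successor is leftmost, the last one rightmost -/
theorem AllOK.first (h : AllOK G D P) {i j : ℕ} (hi : i < G.n) (hj : j < G.cnt i) :
    D.l0 (G.fst i) ≤ D.l0 (G.fst i + j) ∧ D.l1 (G.fst i) ≤ D.l1 (G.fst i + j) := by
  rcases Nat.eq_zero_or_pos j with h0 | h0
  · subst h0
    exact ⟨le_rfl, le_rfl⟩
  · have h1 := h.ord' hi h0 hj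
    have h2 := h.lr (h.bd hi (j := 0) (by omega))
    rw [Nat.add_zero] at h1 h2
    exact ⟨by omega, by omega⟩

theorem AllOK.last (h : AllOK G D P) {i j : ℕ} (hi : i < G.n) (hj : j < G.cnt i) :
    D.r0 (G.fst i + j) ≤ D.r0 (G.fst i + (G.cnt i - 1)) ∧
      D.r1 (G.fst i + j) ≤ D.r1 (G.fst i + (G.cnt i - 1)) := by
  rcases Nat.lt_or_ge j (G.cnt i - 1) with h0 | h0
  · have h1 := h.ord' hi h0 (by omega)
    have h2 := h.lr (h.bd hi (j := G.cnt i - 1) (by omega))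
    exact ⟨by omega, by omega⟩
  · have h1 : j = G.cnt i - 1 := by omega
    rw [h1]
    exact ⟨le_rfl, le_rfl⟩

theorem AllOK.sgn (h : AllOK G D P) {i : ℕ} (hi : i < G.n) {τ : ℝ} (h0 : 0 ≤ τ) (h1 : τ ≤ 1)
    (x : ℝ) (hl : af (D.l0 i) (D.l1 i) τ ≤ x) (hr : x ≤ af (D.r0 i) (D.r1 i) τ) :
    x ∈ Sg (G.sg i) := by
  have h2 := h.I hi
  unfold ckI at h2
  rw [Bool.and_eq_true] at h2
  have h3 := h2.2
  simp only [Sg, mem_ofPred_eq]
  split_ifs at h3 with h4 h5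
  · simp only [Bool.and_eq_true, decide_eq_true_eq] at h3
    rw [if_pos h4, if_neg (by omega)]
    constructor
    · have := af_mono (X0 := 0 * SC) (X1 := 0 * SC) h0 h1 (by simpa using h3.1.1.1)
        (by simpa using h3.1.1.2)
      rw [af_const] at this
      simpa using this.trans hl
    · have := af_mono (Y0 := 2 * SC) (Y1 := 2 * SC) h0 h1 h3.1.2 h3.2
      rw [af_const] at this
      simpa using hr.trans this
  · simp only [Bool.and_eq_true, decide_eq_true_eq] at h3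
    rw [if_neg h4, if_pos h5]
    constructor
    · have := af_mono (X0 := -2 * SC) (X1 := -2 * SC) h0 h1 h3.1.2 h3.2
      rw [af_const] at this
      simpa using this.trans hl
    · have := af_mono (Y0 := 0 * SC) (Y1 := 0 * SC) h0 h1 (by simpa using h3.1.1.1)
        (by simpa using h3.1.1.2)
      rw [af_const] at this
      simpa using hr.trans this

/-- the strips of the vertices -/
def NV (G : Graph) (D : Pts) (P : Par) (τ : ℝ) (i : Fin G.n) : Set (ℝ × ℝ) :=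
  strip (af P.c0 P.c1 τ) (af P.b0 P.b1 τ) (af (D.l0 i) (D.l1 i) τ) (af (D.r0 i) (D.r1 i) τ)
    (G.s1 i) (G.s2 i) (G.s3 i)

theorem AllOK.cov (h : AllOK G D P) (hb0 : 0 < P.b0) (hb1 : 0 < P.b1) {τ : ℝ} (h0 : 0 ≤ τ)
    (h1 : τ ≤ 1) (i w : Fin G.n) (hE : Ed G i w) :
    Cov (hen (af P.c0 P.c1 τ) (af P.b0 P.b1 τ)) Prod.fst (NV G D P τ i) (af (D.l0 i) (D.l1 i) τ)
      (af (D.r0 i) (D.r1 i) τ) (NV G D P τ w) (af (D.l0 w) (D.l1 w) τ) (af (D.r0 w) (D.r1 w) τ) := by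
  have hS := SC_pos
  have hb0' : (0 : ℝ) < P.b0 := by exact_mod_cast hb0
  have hb1' : (0 : ℝ) < P.b1 := by exact_mod_cast hb1
  have hb : 0 < af P.b0 P.b1 τ := by
    unfold af
    have h2 : 0 < (1 - τ) * (P.b0 : ℝ) + τ * P.b1 := by
      rcases h0.eq_or_lt with h3 | h3
      · rw [← h3]
        simpa using hb0'
      · have h4 := mul_pos h3 hb1'
        have h5 := mul_nonneg (sub_nonneg.2 h1) hb0'.le
        linarith
    exact div_pos h2 hS
  obtain ⟨hE1, hE2⟩ := hE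
  obtain ⟨j, hj⟩ := Nat.exists_eq_add_of_le hE1
  have hjc : j < G.cnt i := by omega
  have hck := h.S i.2 hjc
  rw [← hj] at hck
  unfold ckS at hck
  simp only [Bool.and_eq_true, Bool.or_eq_true, decide_eq_true_eq] at hck
  obtain ⟨⟨⟨-, hs1⟩, hs2⟩, hs3⟩ := hck
  have hfirst := h.first i.2 hjc
  have hlast := h.last i.2 hjc
  rw [← hj] at hfirst hlast
  -- the image of the two sides
  have hside := h i i.2
  unfold ck at hside
  rw [Bool.and_eq_true, if_neg (by omega)] at hside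
  have hF := hside.2
  unfold ckF at hF
  have hyl : ∀ p ∈ NV G D P τ i, p.1 = af (D.l0 i) (D.l1 i) τ →
      (yenc P (G.s1 i) (G.s2 i) (G.s3 i) (D.l0 i) (D.l1 i)).mem τ p.2 := by
    intro p hp hpx
    obtain ⟨_, a2, a3, a4, a5⟩ := hp
    refine yenc_mem h0 h1 hb0.le hb1.le a2 a3 a4 a5 ?_ ?_ ?_
    · have := D2_eq (c := af P.c0 P.c1 τ) hb.ne' p
      rw [hpx] at this
      exact this
    · exact D3_eq hb.ne' p
    · exact D4_eq hb.ne' p
  have hyr : ∀ p ∈ NV G D P τ i, p.1 = af (D.r0 i) (D.r1 i) τ →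
      (yenc P (G.s1 i) (G.s2 i) (G.s3 i) (D.r0 i) (D.r1 i)).mem τ p.2 := by
    intro p hp hpx
    obtain ⟨_, a2, a3, a4, a5⟩ := hp
    refine yenc_mem h0 h1 hb0.le hb1.le a2 a3 a4 a5 ?_ ?_ ?_
    · have := D2_eq (c := af P.c0 P.c1 τ) hb.ne' p
      rw [hpx] at this
      exact this
    · exact D3_eq hb.ne' p
    · exact D4_eq hb.ne' p
  refine ⟨?_, ?_⟩
  · intro p hp h4 h5
    refine hen_strip hb.ne' (fun x hx hx' => ?_) hs2 hs3 hp h4 h5
    rw [hs1]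
    exact h.sgn i.2 h0 h1 x hx hx'
  · split_ifs at hF with h6
    · rw [Bool.and_eq_true] at hF
      refine Or.inl ⟨fun p hp hpx => ?_, fun p hp hpx => ?_⟩
      · have h7 := ckU_spec h0 h1 hb0.le hb1.le (hyl p hp hpx) hF.1
        have h8 := af_mono h0 h1 hfirst.1 hfirst.2
        show p.1 ^ 2 - af P.b0 P.b1 τ * p.2 + af P.c0 P.c1 τ ≤ _
        rw [hpx]
        exact h7.trans h8
      · have h7 := ckL_spec h0 h1 hb0.le hb1.le (hyr p hp hpx) hF.2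
        have h8 := af_mono h0 h1 hlast.1 hlast.2
        show _ ≤ p.1 ^ 2 - af P.b0 P.b1 τ * p.2 + af P.c0 P.c1 τ
        rw [hpx]
        exact h8.trans h7
    · rw [Bool.and_eq_true] at hF
      refine Or.inr ⟨fun p hp hpx => ?_, fun p hp hpx => ?_⟩
      · have h7 := ckL_spec h0 h1 hb0.le hb1.le (hyl p hp hpx) hF.1
        have h8 := af_mono h0 h1 hlast.1 hlast.2
        show _ ≤ p.1 ^ 2 - af P.b0 P.b1 τ * p.2 + af P.c0 P.c1 τ
        rw [hpx]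
        exact h8.trans h7
      · have h7 := ckU_spec h0 h1 hb0.le hb1.le (hyr p hp hpx) hF.2
        have h8 := af_mono h0 h1 hfirst.1 hfirst.2
        show p.1 ^ 2 - af P.b0 P.b1 τ * p.2 + af P.c0 P.c1 τ ≤ _
        rw [hpx]
        exact h7.trans h8

theorem AllOK.disj (h : AllOK G D P) {τ : ℝ} (h0 : 0 ≤ τ) (h1 : τ ≤ 1) (u v w : Fin G.n)
    (hv : Ed G u v) (hw : Ed G u w) (hvw : v ≠ w) : Disjoint (NV G D P τ v) (NV G D P τ w) := by
  have key : ∀ a b : Fin G.n, Ed G u a → Ed G u b → (a : ℕ) < b →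
      Disjoint (NV G D P τ a) (NV G D P τ b) := by
    intro a b ha hb hab
    obtain ⟨j, hj⟩ := Nat.exists_eq_add_of_le ha.1
    obtain ⟨k, hk⟩ := Nat.exists_eq_add_of_le hb.1
    have h2 := h.ord' u.2 (j := j) (j' := k) (by omega) (by have := hb.2; omega)
    rw [← hj, ← hk] at h2
    have h3 := af_lt h0 h1 h2.1 h2.2
    rw [Set.disjoint_left]
    intro p hp hp'
    have h4 := hp.1.2
    have h5 := hp'.1.1
    linarith
  rcases Nat.lt_or_ge (v : ℕ) w with h2 | h2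
  · exact key v w hv hw h2
  · rcases h2.eq_or_lt with h3 | h3
    · exact absurd (Fin.ext h3.symm) hvw
    · exact (key w v hw hv h3).symm

/-- a sum over `0, …, n-1` -/
def sumB (f : ℕ → ℕ) : ℕ → ℕ
  | 0 => 0
  | n + 1 => f n + sumB f n

theorem sumB_eq (f : ℕ → ℕ) (n : ℕ) : sumB f n = ∑ j ∈ Finset.range n, f j := by
  induction n with
  | zero => rfl
  | succ n ih =>
    rw [Finset.sum_range_succ, ← ih]
    exact Nat.add_comm _ _

/-- the check of the weight of the vertex `i` -/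
def ckW (G : Graph) (W : ℕ → ℕ) (lamN lamD i : ℕ) : Bool :=
  decide (lamN * W i ≤ lamD * sumB (fun j => W (G.fst i + j)) (G.cnt i))

/-- the start vertex: type `(+,+,·)`, `-1.9 ≤ l`, `r ≤ 1.7` -/
def ckX (G : Graph) (D : Pts) (W : ℕ → ℕ) (i : ℕ) : Bool :=
  decide (i < G.n) && decide (0 < W i) && decide (G.s1 i = 0) && decide (G.s2 i = 0) &&
    (decide (G.s3 i = 0) || decide (G.s3 i = 2)) &&
    decide (-19 * SC ≤ 10 * D.l0 i) && decide (-19 * SC ≤ 10 * D.l1 i) &&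
    decide (10 * D.r0 i ≤ 17 * SC) && decide (10 * D.r1 i ≤ 17 * SC)

/-- the parameters: `-1.981874 ≤ c ≤ -1.981873`, `0 < b ≤ 3e-6` -/
def ckP (P : Par) : Bool :=
  decide (-1981874 * SC ≤ 1000000 * P.c0) && decide (-1981874 * SC ≤ 1000000 * P.c1) &&
    decide (1000000 * P.c0 ≤ -1981873 * SC) && decide (1000000 * P.c1 ≤ -1981873 * SC) &&
    decide (0 < P.b0) && decide (0 < P.b1) && decide (1000000 * P.b0 ≤ 3 * SC) &&
    decide (1000000 * P.b1 ≤ 3 * SC)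

/-- the start curve -/
theorem start_curve {c b l r : ℝ} {s3 : ℕ} (hc1 : -1.981874 ≤ c) (hc2 : c ≤ -1.981873)
    (hb1 : 0 < b) (hb2 : b ≤ 3e-6) (hl : -1.9 ≤ l) (hlr : l ≤ r) (hr : r ≤ 1.7)
    (hs : s3 = 0 ∨ s3 = 2) :
    ∃ (γ : ℝ → ℝ × ℝ) (a t : ℝ), Cross Prod.fst (strip c b l r 0 0 s3) l r γ a t := by
  obtain ⟨γ, hγ⟩ : ∃ γ : ℝ → ℝ × ℝ, γ = fun u =>
    (((u ^ 2 + c) ^ 2 + c - b * u) ^ 2 + c - b * (u ^ 2 + c), (u ^ 2 + c) ^ 2 + c - b * u) := ⟨_, rfl⟩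
  have hcont : Continuous γ := by
    rw [hγ]
    fun_prop
  have hg : Continuous fun u => (γ u).1 := continuous_fst.comp hcont
  have hua : (γ 1.8412).1 ≤ l := by
    rw [hγ]
    show ((1.8412 ^ 2 + c) ^ 2 + c - b * 1.8412) ^ 2 + c - b * (1.8412 ^ 2 + c) ≤ l
    obtain ⟨q, hq⟩ : ∃ q : ℝ, q = (1.8412 : ℝ) ^ 2 + c := ⟨_, rfl⟩
    rw [← hq]
    have q1 : 1.4081434 ≤ q := by rw [hq]; norm_num; linarith
    have q2 : q ≤ 1.4081445 := by rw [hq]; norm_num; linarith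
    have q3 : 1.982867 ≤ q ^ 2 := by nlinarith
    have q4 : q ^ 2 ≤ 1.982872 := by nlinarith
    have q5 : 0 ≤ b * q := by positivity
    obtain ⟨m, hm⟩ : ∃ m : ℝ, m = q ^ 2 + c - b * 1.8412 := ⟨_, rfl⟩
    rw [← hm]
    have m1 : 0 ≤ m := by rw [hm]; linarith
    have m2 : m ≤ 0.001 := by rw [hm]; linarith
    have m3 : m ^ 2 ≤ 0.001 := by nlinarith
    linarith
  have hub : r ≤ (γ 1.99).1 := by
    rw [hγ]
    show r ≤ ((1.99 ^ 2 + c) ^ 2 + c - b * 1.99) ^ 2 + c - b * (1.99 ^ 2 + c)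
    obtain ⟨q, hq⟩ : ∃ q : ℝ, q = (1.99 : ℝ) ^ 2 + c := ⟨_, rfl⟩
    rw [← hq]
    have q1 : 1.978 ≤ q := by rw [hq]; norm_num; linarith
    have q2 : q ≤ 1.979 := by rw [hq]; norm_num; linarith
    have q3 : 3.912 ≤ q ^ 2 := by nlinarith
    obtain ⟨m, hm⟩ : ∃ m : ℝ, m = q ^ 2 + c - b * 1.99 := ⟨_, rfl⟩
    rw [← hm]
    have m1 : 1.93 ≤ m := by rw [hm]; linarith
    have m3 : 3.72 ≤ m ^ 2 := by nlinarith
    have m4 : b * q ≤ 3e-6 * 2 := by nlinarith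
    linarith
  obtain ⟨a, t, h1, h2, h3, h4, h5, h6⟩ :=
    ivt2 (fun u => (γ u).1) 1.8412 1.99 l r (by norm_num) hlr hg.continuousOn hua hub
  refine ⟨γ, a, t, h2, hcont.continuousOn, fun u hu => ?_, Or.inl ⟨h4, h5⟩⟩
  have hu1 : 1.8412 ≤ u := h1.trans hu.1
  have hu2 : u ≤ 1.99 := hu.2.trans h3
  have e1 : (γ u).1 = ((u ^ 2 + c) ^ 2 + c - b * u) ^ 2 + c - b * (u ^ 2 + c) := by rw [hγ]
  have e2 : (γ u).2 = (u ^ 2 + c) ^ 2 + c - b * u := by rw [hγ]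
  have e3 : D2 c b (γ u) = u ^ 2 + c := by
    unfold D2
    rw [e1, e2]
    field_simp
    ring
  have e4 : D3 c b (γ u) = u := by
    unfold D3
    rw [e3, e2]
    field_simp
    ring
  have e5 : D4 c b (γ u) = 0 := by
    unfold D4
    rw [e4, e3]
    field_simp
    ring
  have q0 : 1.8412 ^ 2 ≤ u ^ 2 := by nlinarith
  have q0' : u ^ 2 ≤ 1.99 ^ 2 := by nlinarith
  have q1 : 1.4081434 ≤ u ^ 2 + c := by norm_num at q0 ⊢; linarith
  have q2 : u ^ 2 + c ≤ 1.979 := by norm_num at q0' ⊢; linarith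
  have q3 : 1.982867 ≤ (u ^ 2 + c) ^ 2 := by nlinarith
  have q4 : (u ^ 2 + c) ^ 2 ≤ 3.917 := by nlinarith
  have q5 : 0 ≤ b * u := by positivity
  have q6 : b * u ≤ 3e-6 * 2 := by nlinarith
  refine ⟨h6 u hu, ?_, ?_, ?_, ?_⟩
  · rw [e2]
    simp only [Sg, mem_ofPred_eq, if_true, if_false, zero_ne_one]
    constructor <;> norm_num at * <;> linarith
  · rw [e3]
    simp only [Sg, mem_ofPred_eq, if_true, if_false, zero_ne_one]
    constructor <;> linarith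
  · rw [e4]
    rcases hs with hs | hs
    · subst hs
      simp only [Sg, mem_ofPred_eq, if_true, if_false, zero_ne_one]
      constructor <;> linarith
    · subst hs
      rw [Sg_two]
      constructor <;> linarith
  · rw [e5]
    constructor <;> norm_num

theorem AllOK.horse (h : AllOK G D P) (hb0 : 0 < P.b0) (hb1 : 0 < P.b1) {W : ℕ → ℕ}
    {lamN lamD : ℕ} (hN : 0 < lamN) (hD : 0 < lamD)
    (hW : ∀ i, i < G.n → ckW G W lamN lamD i = true) {τ : ℝ} (h0 : 0 ≤ τ) (h1 : τ ≤ 1) :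
    Horse (hen (af P.c0 P.c1 τ) (af P.b0 P.b1 τ)) Prod.fst (NV G D P τ)
      (fun i => af (D.l0 i) (D.l1 i) τ) (fun i => af (D.r0 i) (D.r1 i) τ) (Ed G)
      (fun i => (W i : ℝ)) ((lamN : ℝ) / lamD) where
  cf := continuous_hen _ _
  cp := continuous_fst
  comp := fun v => strip_compact _ _ _ _ _ _ _
  lr := fun v => af_mono h0 h1 (h.lr v.2).1 (h.lr v.2).2
  cov := fun v v' hE => h.cov hb0 hb1 h0 h1 v v' hE
  disj := fun u v v' h2 h3 h4 => h.disj h0 h1 u v v' h2 h3 h4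
  w0 := fun v => Nat.cast_nonneg _
  lam0 := by positivity
  grow := by
    intro v S hS
    have hD' : (0 : ℝ) < lamD := by exact_mod_cast hD
    have h2 := hW v v.2
    unfold ckW at h2
    rw [decide_eq_true_eq, sumB_eq] at h2
    have h3 : ∑ v' ∈ S, ((W v' : ℕ) : ℝ) =
        ∑ j ∈ Finset.range (G.cnt v), ((W (G.fst v + j) : ℕ) : ℝ) := by
      symm
      refine Finset.sum_bij (fun j hj => (⟨G.fst v + j, h.bd v.2 (Finset.mem_range.1 hj)⟩ : Fin G.n))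
        ?_ ?_ ?_ ?_
      · intro j hj
        have hj' := Finset.mem_range.1 hj
        rw [hS]
        exact ⟨Nat.le_add_right _ _, Nat.add_lt_add_left hj' _⟩
      · intro j hj j' hj' he
        have := congrArg (fun q : Fin G.n => (q : ℕ)) he
        simpa using this
      · intro w hw
        obtain ⟨h4, h5⟩ := (hS w).1 hw
        refine ⟨w - G.fst v, Finset.mem_range.2 (by omega), Fin.ext ?_⟩
        show G.fst v + (w - G.fst v) = w
        omega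
      · intro j hj
        rfl
    rw [h3, div_mul_eq_mul_div, div_le_iff₀ hD', mul_comm _ (lamD : ℝ)]
    exact_mod_cast h2

/-- **Soundness.** -/
theorem AllOK.low (h : AllOK G D P) (hP : ckP P = true) {W : ℕ → ℕ} {lamN lamD : ℕ}
    (hN : 0 < lamN) (hD : 0 < lamD) (hW : ∀ i, i < G.n → ckW G W lamN lamD i = true)
    {i0 : ℕ} (hX : ckX G D W i0 = true) {τ : ℝ} (h0 : 0 ≤ τ) (h1 : τ ≤ 1) :
    (Real.log ((lamN : ℝ) / lamD) : EReal) ≤ MP_99322d_an.h (af P.c0 P.c1 τ) (af P.b0 P.b1 τ) := by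
  have hS := SC_pos
  unfold ckP at hP
  simp only [Bool.and_eq_true, decide_eq_true_eq] at hP
  obtain ⟨⟨⟨⟨⟨⟨⟨p1, p2⟩, p3⟩, p4⟩, p5⟩, p6⟩, p7⟩, p8⟩ := hP
  unfold ckX at hX
  simp only [Bool.and_eq_true, Bool.or_eq_true, decide_eq_true_eq] at hX
  obtain ⟨⟨⟨⟨⟨⟨⟨⟨x1, x2⟩, x3⟩, x4⟩, x5⟩, x6⟩, x7⟩, x8⟩, x9⟩ := hX
  have A : ∀ (m k X0 X1 : ℤ), 0 < k → m * SC ≤ k * X0 → m * SC ≤ k * X1 →
      (m : ℝ) / k ≤ af X0 X1 τ := by
    intro m k X0 X1 hk e1 e2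
    have hk' : (0 : ℝ) < k := by exact_mod_cast hk
    have e3 : (m : ℝ) * SC ≤ k * X0 := by exact_mod_cast e1
    have e4 : (m : ℝ) * SC ≤ k * X1 := by exact_mod_cast e2
    have e5 := mul_le_mul_of_nonneg_left e3 (sub_nonneg.2 h1)
    have e6 := mul_le_mul_of_nonneg_left e4 h0
    unfold af
    rw [div_le_div_iff₀ hk' hS]
    linarith
  have B : ∀ (m k X0 X1 : ℤ), 0 < k → k * X0 ≤ m * SC → k * X1 ≤ m * SC →
      af X0 X1 τ ≤ (m : ℝ) / k := by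
    intro m k X0 X1 hk e1 e2
    have hk' : (0 : ℝ) < k := by exact_mod_cast hk
    have e3 : (k : ℝ) * X0 ≤ m * SC := by exact_mod_cast e1
    have e4 : (k : ℝ) * X1 ≤ m * SC := by exact_mod_cast e2
    have e5 := mul_le_mul_of_nonneg_left e3 (sub_nonneg.2 h1)
    have e6 := mul_le_mul_of_nonneg_left e4 h0
    unfold af
    rw [div_le_div_iff₀ hS hk']
    linarith
  have hb : 0 < af P.b0 P.b1 τ := by
    have hb0' : (0 : ℝ) < P.b0 := by exact_mod_cast p5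
    have hb1' : (0 : ℝ) < P.b1 := by exact_mod_cast p6
    unfold af
    refine div_pos ?_ hS
    rcases h0.eq_or_lt with h3 | h3
    · rw [← h3]
      simpa using hb0'
    · have h4 := mul_pos h3 hb1'
      have h5 := mul_nonneg (sub_nonneg.2 h1) hb0'.le
      linarith
  have c1 := A (-1981874) 1000000 P.c0 P.c1 (by norm_num) p1 p2
  have c2 := B (-1981873) 1000000 P.c0 P.c1 (by norm_num) p3 p4
  have c3 := B 3 1000000 P.b0 P.b1 (by norm_num) p7 p8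
  have c4 := A (-19) 10 (D.l0 i0) (D.l1 i0) (by norm_num) x6 x7
  have c5 := B 17 10 (D.r0 i0) (D.r1 i0) (by norm_num) x8 x9
  have hlr := af_mono h0 h1 (h.lr x1).1 (h.lr x1).2
  push_cast at c1 c2 c3 c4 c5
  obtain ⟨γ, a, t, hc⟩ := start_curve (c := af P.c0 P.c1 τ) (b := af P.b0 P.b1 τ)
    (l := af (D.l0 i0) (D.l1 i0) τ) (r := af (D.r0 i0) (D.r1 i0) τ) (s3 := G.s3 i0)
    (by norm_num at c1 ⊢; linarith) (by norm_num at c2 ⊢; linarith) hb (by norm_num at c3 ⊢; linarith)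
    (by norm_num at c4 ⊢; linarith) hlr (by norm_num at c5 ⊢; linarith) x5
  refine le_h_of_horse (h.horse p5 p6 hN hD hW h0 h1) ⟨i0, x1⟩ (by exact_mod_cast x2) γ a t ?_
  show Cross Prod.fst (strip _ _ _ _ (G.s1 i0) (G.s2 i0) (G.s3 i0)) _ _ γ a t
  rw [x3, x4]
  exact hc

/-- **A piece of a side**, from `j0/16` to `j1/16`. -/
theorem AllOK.side (h : AllOK G D P) (hP : ckP P = true) {W : ℕ → ℕ} {lamN lamD : ℕ}
    (hN : 0 < lamN) (hD : 0 < lamD) (hW : ∀ i, i < G.n → ckW G W lamN lamD i = true)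
    {i0 : ℕ} (hX : ckX G D W i0 = true) {sc sb dc db j0 j1 : ℤ} (hj : j0 < j1)
    (e1 : 16 * P.c0 = 16 * sc + j0 * dc) (e2 : 16 * P.c1 = 16 * sc + j1 * dc)
    (e3 : 16 * P.b0 = 16 * sb + j0 * db) (e4 : 16 * P.b1 = 16 * sb + j1 * db) :
    Top.SideLow (Real.log ((lamN : ℝ) / lamD)) sc sb dc db ((j0 : ℝ) / 16) ((j1 : ℝ) / 16) := by
  intro t ht0 ht1
  have hj' : (0 : ℝ) < (j1 : ℝ) - j0 := by
    have : (j0 : ℝ) < j1 := by exact_mod_cast hj
    linarith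
  obtain ⟨τ, hτ⟩ : ∃ τ : ℝ, τ = (16 * t - j0) / ((j1 : ℝ) - j0) := ⟨_, rfl⟩
  have h0 : 0 ≤ τ := by
    rw [hτ]
    exact div_nonneg (by linarith) hj'.le
  have h1 : τ ≤ 1 := by
    rw [hτ, div_le_one hj']
    linarith
  have ht : 16 * t = j0 + τ * (j1 - j0) := by
    rw [hτ]
    field_simp
    ring
  have hS : (SC : ℝ) = 2 ^ 96 := by
    unfold SC
    norm_num
  have f1 : (16 : ℝ) * P.c0 = 16 * sc + j0 * dc := by exact_mod_cast e1
  have f2 : (16 : ℝ) * P.c1 = 16 * sc + j1 * dc := by exact_mod_cast e2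
  have f3 : (16 : ℝ) * P.b0 = 16 * sb + j0 * db := by exact_mod_cast e3
  have f4 : (16 : ℝ) * P.b1 = 16 * sb + j1 * db := by exact_mod_cast e4
  have hc : ((sc : ℝ) + t * dc) / 2 ^ 96 = af P.c0 P.c1 τ := by
    unfold af
    rw [hS]
    congr 1
    have : 16 * ((sc : ℝ) + t * dc) = 16 * ((1 - τ) * P.c0 + τ * P.c1) := by
      calc 16 * ((sc : ℝ) + t * dc) = 16 * sc + (16 * t) * dc := by ring
        _ = 16 * sc + (j0 + τ * (j1 - j0)) * dc := by rw [ht]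
        _ = (1 - τ) * (16 * sc + j0 * dc) + τ * (16 * sc + j1 * dc) := by ring
        _ = (1 - τ) * (16 * P.c0) + τ * (16 * P.c1) := by rw [f1, f2]
        _ = _ := by ring
    linarith
  have hb : ((sb : ℝ) + t * db) / 2 ^ 96 = af P.b0 P.b1 τ := by
    unfold af
    rw [hS]
    congr 1
    have : 16 * ((sb : ℝ) + t * db) = 16 * ((1 - τ) * P.b0 + τ * P.b1) := by
      calc 16 * ((sb : ℝ) + t * db) = 16 * sb + (16 * t) * db := by ring
        _ = 16 * sb + (j0 + τ * (j1 - j0)) * db := by rw [ht]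
        _ = (1 - τ) * (16 * sb + j0 * db) + τ * (16 * sb + j1 * db) := by ring
        _ = (1 - τ) * (16 * P.b0) + τ * (16 * P.b1) := by rw [f3, f4]
        _ = _ := by ring
    linarith
  rw [hc, hb]
  exact h.low hP hN hD hW hX h0 h1

end

end Pool.Agent.Work.MP_99322d_an.L
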